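import Pool.Agent.N76.LP.Stm

set_option autoImplicit false

/-!
# LP/CLOSE: a closed path is a loop (subtask 9443)
-/

namespace Pool.Agent.N76.LP

open Polynomial MeasureTheory Set Filter Topology Module
open Pool.Agent.Y94.R (Lp)

namespace CloseAux

/-- inside the unit intervals -/
theorem ev_mid (F : ℝ → ℂ) (s : ℝ) (hs : 0 < Int.fract s) :
    (fun t => F (Int.fract t)) =ᶠ[𝓝 s] fun t => F (t - ⌊s⌋) := by
  have h1 : (⌊s⌋ : ℝ) < s := by
    have := Int.self_sub_floor s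
    linarith
  have h2 : s < ⌊s⌋ + 1 := Int.lt_floor_add_one s
  filter_upwards [Ioo_mem_nhds h1 h2] with t ht
  have h3 : ⌊t⌋ = ⌊s⌋ := by
    rw [Int.floor_eq_iff]
    exact ⟨ht.1.le, ht.2⟩
  rw [← Int.self_sub_floor t, h3]

theorem ev_int (F : ℝ → ℂ) (v : ℂ) (hl : ∃ ε : ℝ, 0 < ε ∧ ∀ s, s ≤ ε → F s = v)
    (hr : ∃ ε : ℝ, 0 < ε ∧ ∀ s, 1 - ε ≤ s → F s = v) (s : ℝ) (hs : Int.fract s = 0) :
    (fun t => F (Int.fract t)) =ᶠ[𝓝 s] fun _ => v := by
  obtain ⟨ε, hε, h1⟩ := hl
  obtain ⟨ε', hε', h2⟩ := hr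
  have h0 : (⌊s⌋ : ℝ) = s := by
    have := Int.self_sub_floor s
    linarith
  have h3 : s - min ε' 1 < s := by
    have : 0 < min ε' 1 := lt_min hε' one_pos
    linarith
  have h4 : s < s + min ε 1 := by
    have : 0 < min ε 1 := lt_min hε one_pos
    linarith
  filter_upwards [Ioo_mem_nhds h3 h4] with t ht
  have h5 := min_le_left ε' 1
  have h6 := min_le_right ε' 1
  have h7 := min_le_left ε 1
  have h8 := min_le_right ε 1
  rcases le_or_gt s t with hst | hst
  · have h9 : ⌊t⌋ = ⌊s⌋ := by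
      rw [Int.floor_eq_iff, h0]
      exact ⟨hst, by linarith [ht.2]⟩
    apply h1
    rw [← Int.self_sub_floor t, h9, h0]
    linarith [ht.2]
  · have h9 : ⌊t⌋ = ⌊s⌋ - 1 := by
      rw [Int.floor_eq_iff]
      push_cast
      rw [h0]
      exact ⟨by linarith [ht.1], by linarith⟩
    apply h2
    rw [← Int.self_sub_floor t, h9]
    push_cast
    rw [h0]
    linarith [ht.1]

theorem contDiff_fract (F : ℝ → ℂ) (v : ℂ) (hF : ContDiff ℝ 2 F)
    (hl : ∃ ε : ℝ, 0 < ε ∧ ∀ s, s ≤ ε → F s = v)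
    (hr : ∃ ε : ℝ, 0 < ε ∧ ∀ s, 1 - ε ≤ s → F s = v) :
    ContDiff ℝ 2 fun t => F (Int.fract t) := by
  rw [contDiff_iff_contDiffAt]
  intro s
  rcases eq_or_lt_of_le (Int.fract_nonneg s) with h0 | h0
  · exact contDiffAt_const.congr_of_eventuallyEq (ev_int F v hl hr s h0.symm)
  · have h1 : ContDiff ℝ 2 fun t : ℝ => F (t - ⌊s⌋) := hF.comp (contDiff_id.sub contDiff_const)
    exact h1.contDiffAt.congr_of_eventuallyEq (ev_mid F s h0)

theorem ev_unit (F : ℝ → ℂ) (s : ℝ) (hs : s ∈ Ioo (0 : ℝ) 1) :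
    (fun t => F (Int.fract t)) =ᶠ[𝓝 s] F := by
  have h1 : ⌊s⌋ = 0 := by
    rw [Int.floor_eq_iff]
    push_cast
    exact ⟨hs.1.le, by linarith [hs.2]⟩
  have h2 := ev_mid F s (by
    rw [← Int.self_sub_floor s, h1]
    push_cast
    linarith [hs.1])
  rw [h1] at h2
  simpa using h2

end CloseAux

open CloseAux in
theorem close : S_CLOSE := by
  intro D p c
  obtain ⟨ε, hε, hl⟩ := c.left
  obtain ⟨ε', hε', hr⟩ := c.right
  refine ⟨{ x := fun s => c.x (Int.fract s)
            y := fun s => c.y (Int.fract s)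
            contDiff_x := contDiff_fract c.x p.1 c.contDiff_x ⟨ε, hε, fun s hs => (hl s hs).1⟩
              ⟨ε', hε', fun s hs => (hr s hs).1⟩
            contDiff_y := contDiff_fract c.y p.2 c.contDiff_y ⟨ε, hε, fun s hs => (hl s hs).2⟩
              ⟨ε', hε', fun s hs => (hr s hs).2⟩
            periodic_x := fun s => by rw [Int.fract_add_one]
            periodic_y := fun s => by rw [Int.fract_add_one]
            eq := fun s => c.eq _
            ne := fun s => c.ne _ }, fun q => ?_⟩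
  unfold per Pth.int
  rw [intervalIntegral.integral_of_le zero_le_one, intervalIntegral.integral_of_le zero_le_one,
    integral_Ioc_eq_integral_Ioo, integral_Ioc_eq_integral_Ioo]
  refine setIntegral_congr_fun measurableSet_Ioo fun s hs => ?_
  have hx := ev_unit c.x s hs
  have hy := ev_unit c.y s hs
  simp only
  rw [hx.deriv_eq, hx.eq_of_nhds, hy.eq_of_nhds]

end Pool.Agent.N76.LP
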