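import Pool.Agent.N76.LP.Stm

/-!
# LP/CONN (helper570): the curve is path connected
-/

set_option autoImplicit false

namespace Pool.Agent.N76.LP

open Polynomial MeasureTheory Set Filter Topology Module

namespace ConnAux

variable {D : ℂ[X]}

/-- joined by a path -/
def R (D : ℂ[X]) (p p' : ℂ × ℂ) : Prop := Nonempty (Pth D p p')

lemma rf {p : ℂ × ℂ} (hp : p ∈ Pts D) : R D p p :=
  ⟨{ x := fun _ => p.1
     y := fun _ => p.2
     contDiff_x := contDiff_const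
     contDiff_y := contDiff_const
     eq := fun _ => hp.1
     ne := fun _ => hp.2
     left := ⟨1, one_pos, fun _ _ => ⟨rfl, rfl⟩⟩
     right := ⟨1, one_pos, fun _ _ => ⟨rfl, rfl⟩⟩ }⟩

lemma tr (hT : S_TRANS) {a b c : ℂ × ℂ} (h : R D a b) (h' : R D b c) : R D a c := by
  obtain ⟨u⟩ := h
  obtain ⟨v⟩ := h'
  obtain ⟨w, -⟩ := hT u v
  exact ⟨w⟩

lemma sy (hS : S_SYM) {a b : ℂ × ℂ} (h : R D a b) : R D b a := by
  obtain ⟨u⟩ := h
  obtain ⟨w, -⟩ := hS.1 u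
  exact ⟨w⟩

lemma sh (hS : S_SYM) {a b : ℂ × ℂ} (h : R D a b) : R D (a.1, -a.2) (b.1, -b.2) := by
  obtain ⟨u⟩ := h
  obtain ⟨w, -⟩ := hS.2 u
  exact ⟨w⟩

lemma exists_pt {x : ℂ} (hx : D.eval x ≠ 0) : ∃ y, (x, y) ∈ Pts D := by
  obtain ⟨y, hy⟩ := IsAlgClosed.exists_pow_nat_eq (D.eval x) (n := 2) two_pos
  refine ⟨y, hy, ?_⟩
  rintro h
  apply hx
  change y = 0 at h
  rw [← hy, h]
  norm_num

lemma pt_ne {p : ℂ × ℂ} (hp : p ∈ Pts D) : D.eval p.1 ≠ 0 := by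
  rw [← hp.1]
  exact pow_ne_zero 2 hp.2

/-- the set of the points over which there is a point joined to `p` -/
def A (D : ℂ[X]) (p : ℂ × ℂ) : Set ℂ := {x | ∃ y, (x, y) ∈ Pts D ∧ R D p (x, y)}

lemma open_A (hT : S_TRANS) (hL : S_LOCAL) (p : ℂ × ℂ) : IsOpen (A D p) := by
  rw [Metric.isOpen_iff]
  rintro x ⟨y, hy, hR⟩
  obtain ⟨δ, Y, G, hδ, -, -, h⟩ := hL D 0 (x, y) hy
  refine ⟨δ, hδ, fun x' hx' => ?_⟩
  obtain ⟨h1, -, c, -⟩ := h x' hx'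
  exact ⟨Y x', h1, tr hT hR ⟨c⟩⟩

lemma open_B (hT : S_TRANS) (hS : S_SYM) (hL : S_LOCAL) (p : ℂ × ℂ) :
    IsOpen {x | D.eval x ≠ 0 ∧ x ∉ A D p} := by
  rw [Metric.isOpen_iff]
  rintro x ⟨hx, hxA⟩
  obtain ⟨y, hy⟩ := exists_pt hx
  obtain ⟨δ, Y, G, hδ, -, -, h⟩ := hL D 0 (x, y) hy
  refine ⟨δ, hδ, fun x' hx' => ?_⟩
  obtain ⟨h1, -, c, -⟩ := h x' hx'
  refine ⟨pt_ne h1, fun hx'A => hxA ?_⟩
  obtain ⟨y', hy', hR⟩ := hx'A
  have h2 : y' ^ 2 = Y x' ^ 2 := hy'.1.trans h1.1.symm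
  rcases sq_eq_sq_iff_eq_or_eq_neg.1 h2 with h3 | h3
  · rw [h3] at hR
    exact ⟨y, hy, tr hT hR (sy hS ⟨c⟩)⟩
  · rw [h3] at hR
    refine ⟨-y, ⟨?_, neg_ne_zero.2 hy.2⟩, tr hT hR (sy hS (sh hS ⟨c⟩))⟩
    change (-y) ^ 2 = D.eval x
    rw [neg_sq]
    exact hy.1

lemma all_A (hT : S_TRANS) (hS : S_SYM) (hL : S_LOCAL) (hD : D ≠ 0) {p : ℂ × ℂ} (hp : p ∈ Pts D)
    {x : ℂ} (hx : D.eval x ≠ 0) : x ∈ A D p := by
  have hc : ({x | D.IsRoot x} : Set ℂ).Countable := (finite_setOfPred_isRoot hD).countable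
  have hconn : IsPreconnected ({x | D.IsRoot x} : Set ℂ)ᶜ := by
    refine (hc.isPathConnected_compl_of_one_lt_rank ?_).isConnected.isPreconnected
    rw [Complex.rank_real_complex]
    norm_num
  have h1 : ({x | D.IsRoot x} : Set ℂ)ᶜ ⊆ A D p := by
    refine IsPreconnected.subset_left_of_subset_union (open_A hT hL p)
      (open_B (D := D) hT hS hL p) ?_ ?_ ?_
      hconn
    · rw [Set.disjoint_left]
      exact fun z hz hz' => hz'.2 hz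
    · intro z hz
      by_cases h : z ∈ A D p
      · exact Or.inl h
      · exact Or.inr ⟨hz, h⟩
    · exact ⟨p.1, pt_ne hp, p.2, hp, rf hp⟩
  exact h1 hx

end ConnAux

open ConnAux

/-- **CONN** -/
theorem conn (hT : S_TRANS) (hS : S_SYM) (hL : S_LOCAL) (hW : S_SWITCH) : S_CONN := by
  intro D hsq hdeg p hp p' hp'
  have hD : D ≠ 0 := hsq.ne_zero
  obtain ⟨e, he⟩ := Complex.exists_root (Polynomial.natDegree_pos_iff_degree_pos.1 hdeg)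
  obtain ⟨δ, B, hδ, h⟩ := hW D 0 hsq e he
  have hc : ({x | D.IsRoot x} : Set ℂ).Countable := (finite_setOfPred_isRoot hD).countable
  obtain ⟨x₁, hx₁, hd⟩ := (hc.dense_compl ℂ).exists_dist_lt e hδ
  have hx₁' : D.eval x₁ ≠ 0 := hx₁
  obtain ⟨y₁, hy₁⟩ := exists_pt hx₁'
  obtain ⟨c, -⟩ := h (x₁, y₁) hy₁ (by
    rw [dist_comm, dist_eq_norm] at hd
    exact hd)
  have key : ∀ a ∈ Pts D, R D a (x₁, y₁) := by
    intro a ha
    obtain ⟨y, hy, hR⟩ := all_A hT hS hL hD ha hx₁'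
    have h2 : y ^ 2 = y₁ ^ 2 := hy.1.trans hy₁.1.symm
    rcases sq_eq_sq_iff_eq_or_eq_neg.1 h2 with h3 | h3
    · rwa [h3] at hR
    · rw [h3] at hR
      exact tr hT hR (sy hS ⟨c⟩)
  exact tr hT (key p hp) (sy hS (key p' hp'))

end Pool.Agent.N76.LP
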