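import Pool.Agent.N76.LP.Stm

set_option autoImplicit false

/-!
# Project LP, part EXI: assembly of the existence of generic loops with independent periods
-/

namespace Pool.Agent.N76.LP

open Polynomial MeasureTheory Set Filter Topology Module
open Pool.Agent.Y94.R (Lp)
open scoped Real

/-- a generic loop with almost the same periods -/
theorem ExiAux.near (hT : S_TRIG) (hG : S_GEN) (hL : S_LIFT) {D : ℂ[X]} (γ₀ : Lp D) (P : ℂ[X]) (g : ℕ)
    (Z : Set ℂ) (hP : 0 < P.natDegree) (hZ : Z.Finite) (ε : ℝ) (hε : 0 < ε) :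
    ∃ γ : Lp D, (∀ j < g, ‖per γ (X ^ j) - per γ₀ (X ^ j)‖ < ε) ∧ (∀ s, γ.x s ∉ Z) ∧
      {τ : ℝ | ∃ s, P.eval (γ.x s) = (τ : ℂ)}.Finite := by
  obtain ⟨η, hη, hlift⟩ := hL γ₀ g ε hε
  obtain ⟨x₁, hx₁, hper, han, hclose, hdclose⟩ := hT γ₀.x γ₀.contDiff_x γ₀.periodic_x (η / 2) (by positivity)
  obtain ⟨δ, hδ, hδZ, hfin⟩ := hG x₁ hx₁ hper han Z hZ P hP (η / 2) (by positivity)
  obtain ⟨γ, hγx, hγ⟩ := hlift (fun s => x₁ s + δ) (hx₁.add contDiff_const) (fun s => by rw [hper s])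
    (fun s => by
      have h1 := hclose s
      calc ‖x₁ s + δ - γ₀.x s‖ = ‖(x₁ s - γ₀.x s) + δ‖ := by congr 1; ring
        _ ≤ ‖x₁ s - γ₀.x s‖ + ‖δ‖ := norm_add_le _ _
        _ ≤ η := by linarith)
    (fun s => by
      have h1 := hdclose s
      have h2 : deriv (fun s => x₁ s + δ) s = deriv x₁ s := by
        simp only [deriv_add_const']
      rw [h2]
      linarith)
  refine ⟨γ, hγ, ?_, ?_⟩
  · rw [hγx]; exact hδZ
  · rw [hγx]; exact hfin

theorem exi (hP : S_POT) (hM : S_MAX) (hS : S_SPAN) (hT : S_TRIG) (hG : S_GEN) (hL : S_LIFT) : S_EXI := by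
  intro D P g Z hD hdeg hPdeg hZ
  obtain ⟨γ₀, hγ₀⟩ := hS D g (fun q hq hre => by
    obtain ⟨h, hh⟩ := hP D q hD (by omega) hre
    exact hM D q g h hD hdeg hq hh)
  have hopen : IsOpen {f : Fin (2 * g) → (Fin g → ℂ) | LinearIndependent ℝ f} :=
    isOpen_setOf_linearIndependent
  obtain ⟨ε, hε, hball⟩ := Metric.isOpen_iff.1 hopen _ hγ₀
  choose γ h1 h2 h3 using fun l => ExiAux.near hT hG hL (γ₀ l) P g Z hPdeg hZ ε hε
  refine ⟨γ, ?_, h2, ?_⟩
  · refine hball ?_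
    rw [Metric.mem_ball, dist_pi_lt_iff hε]
    intro l
    rw [dist_pi_lt_iff hε]
    intro j
    rw [dist_eq_norm]
    exact h1 l j j.2
  · have h4 : {τ : ℝ | ∃ l s, P.eval ((γ l).x s) = (τ : ℂ)} =
        ⋃ l, {τ : ℝ | ∃ s, P.eval ((γ l).x s) = (τ : ℂ)} := by
      ext τ
      simp only [mem_setOf_eq, mem_iUnion]
    rw [h4]
    exact Set.finite_iUnion h3

end Pool.Agent.N76.LP
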