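import Pool.Agent.N76.LP.Stm

set_option autoImplicit false

/-!
# Project LP: generic translations of an analytic loop in the plane. By helper678.
-/

namespace Pool.Agent.N76.LP

open Polynomial MeasureTheory Set Filter Topology Module

namespace GenAux

lemma per_int {x : ℝ → ℂ} (hx : ∀ s, x (s + 1) = x s) (s : ℝ) : x (Int.fract s) = x s := by
  have h : Function.Periodic x 1 := hx
  have h1 := h.sub_zsmul_eq (x := s) ⌊s⌋
  rw [← h1]
  congr 1
  rw [zsmul_eq_mul, mul_one]
  rfl

lemma fract_mem (s : ℝ) : Int.fract s ∈ Icc (0 : ℝ) 1 :=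
  ⟨Int.fract_nonneg s, (Int.fract_lt_one s).le⟩

/-- the set of translations which avoid a point -/
def av (x : ℝ → ℂ) (z : ℂ) : Set ℂ := (range fun s : ℝ => z - x s)ᶜ

lemma av_open {x : ℝ → ℂ} (hc : Continuous x) (hx : ∀ s, x (s + 1) = x s) (z : ℂ) :
    IsOpen (av x z) := by
  have h1 : (range fun s : ℝ => z - x s) = (fun s : ℝ => z - x s) '' Icc 0 1 := by
    ext w
    constructor
    · rintro ⟨s, rfl⟩
      exact ⟨Int.fract s, fract_mem s, by simp only [per_int hx]⟩
    · rintro ⟨s, _, rfl⟩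
      exact ⟨s, rfl⟩
  unfold av
  rw [h1]
  exact ((isCompact_Icc.image (by fun_prop)).isClosed).isOpen_compl

lemma av_dense {x : ℝ → ℂ} (hc : ContDiff ℝ 2 x) (z : ℂ) : Dense (av x z) := by
  unfold av
  refine ContDiff.dense_compl_range_of_finrank_lt_finrank ?_ ?_
  · exact contDiff_const.sub (hc.of_le (by norm_num))
  · rw [Complex.finrank_real_complex, Module.finrank_self]
    norm_num

lemma av_mem {x : ℝ → ℂ} {z δ : ℂ} (h : δ ∈ av x z) (s : ℝ) : x s + δ ≠ z := by
  intro h1
  exact h ⟨s, by rw [← h1]; ring⟩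

/-- the translations with `Im P (x 0 + δ) ≠ 0` -/
def im (P : ℂ[X]) (a : ℂ) : Set ℂ := {δ | (P.eval (a + δ)).im ≠ 0}

lemma im_open (P : ℂ[X]) (a : ℂ) : IsOpen (im P a) := by
  unfold im
  have hc : Continuous fun δ : ℂ => (P.eval (a + δ)).im :=
    Complex.continuous_im.comp (P.continuous.comp (continuous_const.add continuous_id))
  exact isOpen_ne_fun hc continuous_const

lemma im_dense (P : ℂ[X]) (hP : 0 < P.natDegree) (a : ℂ) : Dense (im P a) := by
  have hA : AnalyticOnNhd ℂ (fun z : ℂ => P.eval z) univ := AnalyticOnNhd.eval_polynomial P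
  rcases hA.is_constant_or_isOpenMap with ⟨w, hw⟩ | ho
  · exfalso
    have h1 : P = C w := Polynomial.funext fun z => by rw [hw z, eval_C]
    rw [h1, natDegree_C] at hP
    exact lt_irrefl 0 hP
  · rw [dense_iff_inter_open]
    intro U hU hne
    have h2 : IsOpenMap fun δ : ℂ => P.eval (a + δ) := ho.comp (Homeomorph.addLeft a).isOpenMap
    have h3 := h2 U hU
    obtain ⟨δ, hδ⟩ := hne
    by_cases h4 : (P.eval (a + δ)).im = 0
    · have h5 : P.eval (a + δ) ∈ (fun δ : ℂ => P.eval (a + δ)) '' U := ⟨δ, hδ, rfl⟩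
      obtain ⟨ε, hε, h6⟩ := Metric.isOpen_iff.1 h3 _ h5
      have h7 : P.eval (a + δ) + ((ε / 2 : ℝ) : ℂ) * Complex.I ∈ Metric.ball (P.eval (a + δ)) ε := by
        rw [Metric.mem_ball, dist_eq_norm, add_sub_cancel_left, norm_mul, Complex.norm_I, mul_one,
          Complex.norm_real, Real.norm_eq_abs, abs_of_pos (by positivity)]
        linarith
      obtain ⟨δ', hδ', h8⟩ := h6 h7
      refine ⟨δ', hδ', ?_⟩
      show (P.eval (a + δ')).im ≠ 0
      have h9 : (P.eval (a + δ')).im = ε / 2 := by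
        have h10 : P.eval (a + δ') = P.eval (a + δ) + ((ε / 2 : ℝ) : ℂ) * Complex.I := h8
        rw [h10, Complex.add_im, h4, Complex.im_ofReal_mul, Complex.I_im]
        ring
      rw [h9]
      positivity
    · exact ⟨δ, hδ, h4⟩

/-- the zeros of a nonzero analytic function in a compact interval -/
lemma zeros_finite (f : ℝ → ℝ) (hf : AnalyticOnNhd ℝ f univ) (a : ℝ) (ha : f a ≠ 0) :
    {s : ℝ | s ∈ Icc (0 : ℝ) 1 ∧ f s = 0}.Finite := by
  by_contra hinf
  obtain ⟨s, _, hs⟩ := Set.Infinite.exists_accPt_of_subset_isCompact (K := Icc (0 : ℝ) 1) hinf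
    isCompact_Icc fun s hs => hs.1
  rw [accPt_iff_frequently_nhdsNE] at hs
  have h1 := hf.eqOn_zero_of_preconnected_of_frequently_eq_zero isPreconnected_univ
    (mem_univ s) (hs.mono fun y hy => hy.2)
  exact ha (h1 (mem_univ a))

end GenAux

open GenAux

/-- **GEN** -/
theorem gen : S_GEN := by
  intro x hx hper han Z hZ P hP η hη
  have hd1 : Dense (⋂ z ∈ Z, av x z) :=
    dense_biInter_of_isOpen (fun z _ => av_open hx.continuous hper z) hZ.countable
      (fun z _ => av_dense hx z)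
  have hd2 : Dense ((⋂ z ∈ Z, av x z) ∩ im P (x 0)) :=
    hd1.inter_of_isOpen_right (im_dense P hP (x 0)) (im_open P (x 0))
  obtain ⟨δ, h3, h1, h2⟩ := hd2.inter_open_nonempty (Metric.ball 0 η) Metric.isOpen_ball
    ⟨0, Metric.mem_ball_self hη⟩
  refine ⟨δ, by simpa using h3, fun s hs => ?_, ?_⟩
  · have := Set.mem_iInter₂.1 h1 (x s + δ) hs
    exact av_mem this s rfl
  · have hA : AnalyticOnNhd ℝ (fun s : ℝ => P.eval (x s + δ)) univ := by
      intro s _
      have e1 : AnalyticAt ℝ (fun z : ℂ => P.eval z) (x s + δ) :=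
        (AnalyticOnNhd.eval_polynomial (𝕜 := ℝ) P) _ (mem_univ _)
      have e2 : AnalyticAt ℝ (fun s : ℝ => x s + δ) s := (han s (mem_univ s)).add analyticAt_const
      exact AnalyticAt.comp (f := fun s : ℝ => x s + δ) (g := fun z : ℂ => P.eval z) e1 e2
    have hf : AnalyticOnNhd ℝ (fun s : ℝ => (P.eval (x s + δ)).im) univ := by
      intro s hs
      exact AnalyticAt.fun_comp (Complex.imCLM.analyticAt _) (hA s hs)
    have hfin := zeros_finite _ hf 0 h2
    refine (hfin.image fun s : ℝ => (P.eval (x s + δ)).re).subset ?_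
    rintro τ ⟨s, hs⟩
    refine ⟨Int.fract s, ⟨fract_mem s, ?_⟩, ?_⟩
    · rw [per_int hper, hs, Complex.ofReal_im]
    · simp only [per_int hper]
      rw [hs, Complex.ofReal_re]

end Pool.Agent.N76.LP
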