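import Pool.Agent.N76.LP.Stm

set_option autoImplicit false

/-!
# Project LP: the potential near infinity
-/

namespace Pool.Agent.N76.LP

open Polynomial MeasureTheory Set Filter Topology Module
open Pool.Agent.Y94.R (Lp)
open scoped Real

namespace InftyAux

/-- The reflected polynomial. -/
theorem refl_eval (f : ℂ[X]) (N : ℕ) (hf : f.natDegree ≤ N) {w : ℂ} (hw : w ≠ 0) :
    f.eval w⁻¹ = (w⁻¹) ^ N * (f.reflect N).eval w := by
  have : Invertible w⁻¹ := invertibleOfNonzero (inv_ne_zero hw)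
  have h1 := eval₂_reflect_mul_pow (RingHom.id ℂ) w⁻¹ N f hf
  rw [invOf_eq_inv, inv_inv] at h1
  rw [mul_comm]
  exact h1.symm

/-- The punctured disc is connected. -/
theorem punct (ρ : ℝ) (hρ : 0 < ρ) : IsPreconnected {w : ℂ | w ∈ Metric.ball (0 : ℂ) ρ ∧ w ≠ 0} := by
  have h1 : {w : ℂ | w ∈ Metric.ball (0 : ℂ) ρ ∧ w ≠ 0} =
      Complex.exp '' {z : ℂ | z.re < Real.log ρ} := by
    ext w
    rw [mem_image]
    constructor
    · rintro ⟨h1, h2⟩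
      refine ⟨Complex.log w, ?_, Complex.exp_log h2⟩
      rw [Set.mem_ofPred_eq, Complex.log_re]
      rw [mem_ball_zero_iff] at h1
      exact Real.log_lt_log (norm_pos_iff.2 h2) h1
    · rintro ⟨z, hz, rfl⟩
      refine ⟨?_, Complex.exp_ne_zero z⟩
      rw [mem_ball_zero_iff, Complex.norm_exp]
      calc Real.exp z.re < Real.exp (Real.log ρ) := Real.exp_lt_exp.2 hz
        _ = ρ := Real.exp_log hρ
  rw [h1]
  refine IsPreconnected.image ?_ _ Complex.continuous_exp.continuousOn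
  exact (convex_halfSpace_re_lt (Real.log ρ)).isPreconnected

/-- A locally constant function on the punctured disc. -/
theorem const_punct (ρ : ℝ) (hρ : 0 < ρ) (f : ℂ → ℝ)
    (hf : ∀ w ∈ Metric.ball (0 : ℂ) ρ, w ≠ 0 → ∀ᶠ w' in 𝓝 w, f w' = f w) :
    ∃ κ : ℝ, ∀ w ∈ Metric.ball (0 : ℂ) ρ, w ≠ 0 → f w = κ := by
  set S : Set ℂ := {w : ℂ | w ∈ Metric.ball (0 : ℂ) ρ ∧ w ≠ 0} with hS
  have hP : PreconnectedSpace S := Subtype.preconnectedSpace (punct ρ hρ)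
  have h1 : IsLocallyConstant (fun w : S => f w) := by
    rw [IsLocallyConstant.iff_eventually_eq]
    intro w
    exact continuous_subtype_val.continuousAt.eventually (hf w.1 w.2.1 w.2.2)
  have hw₀ : ((ρ / 2 : ℝ) : ℂ) ∈ S := by
    refine ⟨?_, ?_⟩
    · rw [mem_ball_zero_iff, Complex.norm_real, Real.norm_of_nonneg (by linarith)]
      linarith
    · rw [Complex.ofReal_ne_zero]
      linarith
  refine ⟨f ((ρ / 2 : ℝ) : ℂ), fun w hw hw0 => ?_⟩
  exact h1.apply_eq_of_preconnectedSpace ⟨w, hw, hw0⟩ ⟨_, hw₀⟩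

/-- The function `h` at the points near infinity is the real part of a primitive, locally. -/
theorem loc (hL : S_LOCAL) (D q : ℂ[X]) (h : ℂ × ℂ → ℝ)
    (hh : Pot D q h) (ρ : ℝ) (Y K k : ℂ → ℂ)
    (hY : ∀ w ∈ Metric.ball (0 : ℂ) ρ, w ≠ 0 → (w⁻¹, Y w) ∈ Pts D ∧ ContinuousAt Y w)
    (hK : ∀ w ∈ Metric.ball (0 : ℂ) ρ, HasDerivAt K (k w) w)
    (hk : ∀ w ∈ Metric.ball (0 : ℂ) ρ, w ≠ 0 → q.eval w⁻¹ / Y w * (-(w ^ 2)⁻¹) = k w)
    (w₀ : ℂ) (hw₀ : w₀ ∈ Metric.ball (0 : ℂ) ρ) (hw₀' : w₀ ≠ 0) :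
    ∀ᶠ w in 𝓝 w₀, h (w⁻¹, Y w) - (K w).re = h (w₀⁻¹, Y w₀) - (K w₀).re := by
  obtain ⟨hp, hYc⟩ := hY w₀ hw₀ hw₀'
  obtain ⟨δ, Y', G, hδ, hY'0, hY'c, hloc⟩ := hL D q (w₀⁻¹, Y w₀) hp
  simp only at hY'0 hY'c hloc
  have hinv : ContinuousAt (fun w : ℂ => w⁻¹) w₀ := continuousAt_inv₀ hw₀'
  have e1 : ∀ᶠ w in 𝓝 w₀, w⁻¹ ∈ Metric.ball w₀⁻¹ δ :=
    hinv.eventually (Metric.ball_mem_nhds _ hδ)
  have e2 : ∀ᶠ w in 𝓝 w₀, w ∈ Metric.ball (0 : ℂ) ρ := Metric.isOpen_ball.mem_nhds hw₀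
  have e3 : ∀ᶠ w in 𝓝 w₀, w ≠ 0 := isOpen_ne.mem_nhds hw₀'
  have hY'at : ContinuousAt (fun w : ℂ => Y' w⁻¹) w₀ := by
    have h1 : ContinuousAt Y' w₀⁻¹ := hY'c.continuousAt (Metric.ball_mem_nhds _ hδ)
    exact ContinuousAt.comp (g := Y') h1 hinv
  have e4 : ∀ᶠ w in 𝓝 w₀, Y' w⁻¹ + Y w ≠ 0 := by
    have h1 : ContinuousAt (fun w : ℂ => Y' w⁻¹ + Y w) w₀ := hY'at.add hYc
    refine h1.eventually_ne ?_
    rw [hY'0, ← two_mul]
    exact mul_ne_zero two_ne_zero hp.2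
  obtain ⟨r, hr, hball⟩ := Metric.eventually_nhds_iff_ball.1 (e1.and (e2.and (e3.and e4)))
  have hYY : ∀ w ∈ Metric.ball w₀ r, Y' w⁻¹ = Y w := by
    intro w hw
    obtain ⟨h1, h2, h3, h4⟩ := hball w hw
    have h5 := (hloc _ h1).1.1
    have h6 := (hY w h2 h3).1.1
    simp only at h5 h6
    have h7 : (Y' w⁻¹ - Y w) * (Y' w⁻¹ + Y w) = 0 := by
      linear_combination h5 - h6
    exact sub_eq_zero.1 ((mul_eq_zero.1 h7).resolve_right h4)
  have hder : ∀ w ∈ Metric.ball w₀ r, HasDerivAt (fun w => G w⁻¹ - K w) 0 w := by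
    intro w hw
    obtain ⟨h1, h2, h3, h4⟩ := hball w hw
    have h5 := (hloc _ h1).2.1
    rw [hYY w hw] at h5
    have h6 : HasDerivAt (fun w : ℂ => G w⁻¹) (q.eval w⁻¹ / Y w * (-(w ^ 2)⁻¹)) w :=
      HasDerivAt.comp (h₂ := G) w h5 (hasDerivAt_inv h3)
    have h7 := h6.sub (hK w h2)
    rw [hk w h2 h3, sub_self] at h7
    exact h7
  have hconst : ∀ w ∈ Metric.ball w₀ r, G w⁻¹ - K w = G w₀⁻¹ - K w₀ := by
    intro w hw
    exact Metric.isOpen_ball.is_const_of_deriv_eq_zero (convex_ball w₀ r).isPreconnected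
      (fun z hz => (hder z hz).differentiableAt.differentiableWithinAt)
      (fun z hz => (hder z hz).deriv) hw (Metric.mem_ball_self hr)
  rw [Metric.eventually_nhds_iff_ball]
  refine ⟨r, hr, fun w hw => ?_⟩
  obtain ⟨h1, h2, h3, h4⟩ := hball w hw
  obtain ⟨hpt, -, c, hc⟩ := hloc _ h1
  have h5 := hh.2 _ hp _ hpt c
  rw [hc, hYY w hw] at h5
  have h6 := congrArg Complex.re (hconst w hw)
  simp only [Complex.sub_re] at h5 h6
  linarith

end InftyAux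

open InftyAux

/-- INFTY: the potential near infinity. -/
theorem infty (hL : S_LOCAL) : S_INFTY := by
  intro D q g h hD hq hh
  set E := D.reflect (2 * g + 2) with hE
  set qr := q.reflect (g - 1) with hqr
  have hg : 1 ≤ g := by omega
  have hDE : ∀ w : ℂ, w ≠ 0 → D.eval w⁻¹ = (w⁻¹) ^ (2 * g + 2) * E.eval w := fun w hw =>
    refl_eval D _ hD.le hw
  have hqE : ∀ w : ℂ, w ≠ 0 → q.eval w⁻¹ = (w⁻¹) ^ (g - 1) * qr.eval w := fun w hw =>
    refl_eval q _ (by omega) hw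
  have hE0 : E.eval 0 ≠ 0 := by
    have hD0 : D ≠ 0 := by
      rintro rfl
      simp at hD
    have h1 : E = D.reverse := by
      rw [hE, ← hD]
      rfl
    rw [h1, ← coeff_zero_eq_eval_zero, coeff_zero_reverse]
    exact leadingCoeff_ne_zero.2 hD0
  have hcont : ContinuousAt (fun w : ℂ => E.eval w / E.eval 0) 0 :=
    (E.continuous.div_const _).continuousAt
  obtain ⟨ρ, hρ, hball⟩ : ∃ ρ : ℝ, 0 < ρ ∧ ∀ w ∈ Metric.ball (0 : ℂ) ρ,
      E.eval w / E.eval 0 ∈ Complex.slitPlane := by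
    have h1 : ∀ᶠ w in 𝓝 (0 : ℂ), E.eval w / E.eval 0 ∈ Complex.slitPlane := by
      refine hcont.eventually (Complex.isOpen_slitPlane.mem_nhds ?_)
      beta_reduce
      rw [div_self hE0]
      exact Complex.one_mem_slitPlane
    exact Metric.eventually_nhds_iff_ball.1 h1
  obtain ⟨e₀, he₀⟩ := IsAlgClosed.exists_pow_nat_eq (E.eval 0) (two_pos)
  have he₀' : e₀ ≠ 0 := by
    rintro rfl
    exact hE0 (by rw [← he₀]; norm_num)
  set S : ℂ → ℂ := fun w => e₀ * Complex.exp (Complex.log (E.eval w / E.eval 0) / 2) with hS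
  have hSne : ∀ w, S w ≠ 0 := fun w => mul_ne_zero he₀' (Complex.exp_ne_zero _)
  have hSd : ∀ w ∈ Metric.ball (0 : ℂ) ρ, DifferentiableAt ℂ S w := by
    intro w hw
    have h1 : DifferentiableAt ℂ (fun w : ℂ => E.eval w / E.eval 0) w :=
      E.differentiable.differentiableAt.div_const _
    exact (((h1.clog (hball w hw)).div_const 2).cexp).const_mul e₀
  have hS2 : ∀ w ∈ Metric.ball (0 : ℂ) ρ, S w ^ 2 = E.eval w := by
    intro w hw
    have h1 : E.eval w / E.eval 0 ≠ 0 := Complex.slitPlane_ne_zero (hball w hw)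
    rw [hS]
    simp only
    rw [mul_pow, he₀, ← Complex.exp_nat_mul]
    have h2 : ((2 : ℕ) : ℂ) * (Complex.log (E.eval w / E.eval 0) / 2) =
        Complex.log (E.eval w / E.eval 0) := by
      push_cast
      ring
    rw [h2, Complex.exp_log h1]
    field_simp
  set k : ℂ → ℂ := fun w => -(qr.eval w / S w) with hk
  have hkd : DifferentiableOn ℂ k (Metric.ball (0 : ℂ) ρ) := by
    intro w hw
    exact ((qr.differentiable.differentiableAt.div (hSd w hw) (hSne w)).neg).differentiableWithinAt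
  obtain ⟨K, hK0, hK⟩ := hkd.isExactOn_ball.with_val_at 0 0
  set Y : ℂ → ℂ := fun w => (w⁻¹) ^ (g + 1) * S w with hYd
  have hY : ∀ w ∈ Metric.ball (0 : ℂ) ρ, w ≠ 0 → (w⁻¹, Y w) ∈ Pts D ∧ ContinuousAt Y w := by
    intro w hw hw0
    refine ⟨⟨?_, ?_⟩, ?_⟩
    · show Y w ^ 2 = D.eval w⁻¹
      rw [hDE w hw0, ← hS2 w hw, hYd]
      ring
    · exact mul_ne_zero (pow_ne_zero _ (inv_ne_zero hw0)) (hSne w)
    · exact ((continuousAt_inv₀ hw0).pow _).mul (hSd w hw).continuousAt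
  have hkY : ∀ w ∈ Metric.ball (0 : ℂ) ρ, w ≠ 0 →
      q.eval w⁻¹ / Y w * (-(w ^ 2)⁻¹) = k w := by
    intro w hw hw0
    rw [hqE w hw0, hYd, hk]
    simp only
    have h1 : (w⁻¹) ^ (g + 1) = (w⁻¹) ^ (g - 1) * (w⁻¹) ^ 2 := by
      rw [← pow_add]
      congr 1
      omega
    have h2 : (w⁻¹) ^ (g - 1) ≠ 0 := pow_ne_zero _ (inv_ne_zero hw0)
    have h3 := hSne w
    rw [h1]
    generalize (w⁻¹) ^ (g - 1) = u at *
    field_simp
  obtain ⟨κ, hκ⟩ := const_punct ρ hρ (fun w => h (w⁻¹, Y w) - (K w).re)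
    (fun w hw hw0 => loc hL D q h hh ρ Y K k hY hK hkY w hw hw0)
  refine ⟨ρ, κ, Y, K, k, hρ, hK0, hK, ?_, ?_⟩
  · intro w hw hkw hw0
    have h1 : qr.eval w = 0 := by
      have h2 : qr.eval w / S w = 0 := neg_eq_zero.1 hkw
      exact (div_eq_zero_iff.1 h2).resolve_right (hSne w)
    rw [hqE w hw0, h1, mul_zero]
  · intro w hw hw0
    refine ⟨(hY w hw hw0).1, ?_⟩
    have h1 : h (w⁻¹, Y w) - (K w).re = κ := hκ w hw hw0
    linarith

end Pool.Agent.N76.LP
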