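import Pool.Agent.N76.LP.Stm

set_option autoImplicit false

/-!
# Project LP, part LIFT (helper459): lifting of nearby loops
-/

namespace Pool.Agent.N76.LP

open Polynomial MeasureTheory Set Filter Topology Module
open Pool.Agent.Y94.R (Lp)
open scoped Real

namespace LiftAux

/-- uniform continuity near a compact set -/
theorem unif {E F : Type} [PseudoMetricSpace E] [PseudoMetricSpace F] {K : Set E}
    (hK : IsCompact K) (f : E → F) (hf : ∀ a ∈ K, ContinuousAt f a) {ε : ℝ} (hε : 0 < ε) :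
    ∃ η : ℝ, 0 < η ∧ ∀ a ∈ K, ∀ b, dist a b < η → dist (f a) (f b) < ε := by
  have h := hK.uniformContinuousAt_of_continuousAt f hf (Metric.dist_mem_uniformity hε)
  obtain ⟨η, hη, h'⟩ := Metric.mem_uniformity_dist.1 h
  exact ⟨η, hη, fun a ha b hab => h' hab ha⟩

/-- the principal square root -/
noncomputable def sqr (u : ℂ) : ℂ := Complex.exp (Complex.log u / 2)

theorem sqr_sq {u : ℂ} (hu : u ≠ 0) : sqr u ^ 2 = u := by
  unfold sqr
  rw [← Complex.exp_nat_mul]
  have h1 : ((2 : ℕ) : ℂ) * (Complex.log u / 2) = Complex.log u := by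
    push_cast
    ring
  rw [h1, Complex.exp_log hu]

theorem sqr_ne (u : ℂ) : sqr u ≠ 0 := Complex.exp_ne_zero _

theorem sqr_one : sqr 1 = 1 := by
  unfold sqr
  rw [Complex.log_one, zero_div, Complex.exp_zero]

theorem sqr_cont {u : ℂ} (hu : u ∈ Complex.slitPlane) : ContinuousAt sqr u :=
  Complex.continuous_exp.continuousAt.comp ((continuousAt_clog hu).div_const 2)

theorem slit {u : ℂ} (hu : dist 1 u < 1) : u ∈ Complex.slitPlane := by
  left
  rw [dist_eq_norm] at hu
  have h1 := Complex.abs_re_le_norm (1 - u)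
  rw [Complex.sub_re, Complex.one_re] at h1
  have h2 := abs_lt.1 (lt_of_le_of_lt h1 hu)
  linarith [h2.2]

theorem smooth_eval (D : ℂ[X]) {x : ℝ → ℂ} (hx : ContDiff ℝ 2 x) :
    ContDiff ℝ 2 (fun s => D.eval (x s)) := by
  have h1 : ContDiff ℂ 2 (fun z : ℂ => D.eval z) := by
    have h2 := D.contDiff_aeval (𝕜 := ℂ) (n := 2)
    simpa using h2
  exact (h1.restrict_scalars ℝ).comp hx

theorem smooth_sqr {u : ℝ → ℂ} (hu : ContDiff ℝ 2 u) (h : ∀ s, u s ∈ Complex.slitPlane) :
    ContDiff ℝ 2 (fun s => sqr (u s)) := by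
  rw [contDiff_iff_contDiffAt]
  intro s
  have h1 : ContDiffAt ℝ 2 (fun s => Complex.log (u s)) s :=
    ContDiffAt.comp s ((Complex.contDiffAt_log (h s)).restrict_scalars ℝ) hu.contDiffAt
  exact (h1.div_const 2).cexp

end LiftAux

open LiftAux in
theorem lift_ : S_LIFT := by
  intro D γ g ε hε
  have hdx : Continuous (deriv γ.x) := γ.contDiff_x.continuous_deriv (by norm_num)
  have hcx : Continuous γ.x := γ.contDiff_x.continuous
  have hcy : Continuous γ.y := γ.contDiff_y.continuous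
  have hD : Continuous (fun z : ℂ => D.eval z) := D.continuous
  have hDne : ∀ s, D.eval (γ.x s) ≠ 0 := by
    intro s
    rw [← γ.eq s]
    exact pow_ne_zero 2 (γ.ne s)
  -- the curves
  obtain ⟨c, hc⟩ : ∃ c : ℝ → ℂ × ℂ × ℂ, c = fun s => (γ.x s, deriv γ.x s, γ.y s) := ⟨_, rfl⟩
  obtain ⟨d, hd⟩ : ∃ d : ℝ → ℂ × ℂ × ℂ, d = fun s => (γ.x s, γ.x s, γ.y s) := ⟨_, rfl⟩
  have hcc : Continuous c := by
    rw [hc]
    exact hcx.prodMk (hdx.prodMk hcy)
  have hdc : Continuous d := by
    rw [hd]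
    exact hcx.prodMk (hcx.prodMk hcy)
  have hdper : ∀ s, deriv γ.x (s + 1) = deriv γ.x s := by
    intro s
    have h1 : (fun t => γ.x (t + 1)) = γ.x := funext γ.periodic_x
    have h2 := deriv_comp_add_const γ.x 1 s
    rw [h1] at h2
    exact h2.symm
  have hcp : Function.Periodic c 1 := by
    intro s
    rw [hc]
    simp only [γ.periodic_x, γ.periodic_y, hdper]
  have hdp : Function.Periodic d 1 := by
    intro s
    rw [hd]
    simp only [γ.periodic_x, γ.periodic_y]
  have hcK : IsCompact (range c) := hcp.compact_of_continuous one_ne_zero hcc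
  have hdK : IsCompact (range d) := hdp.compact_of_continuous one_ne_zero hdc
  -- the integrands
  obtain ⟨Φ, hΦ⟩ : ∃ Φ : ℂ × ℂ × ℂ → Fin g → ℂ,
      Φ = fun (p : ℂ × ℂ × ℂ) (j : Fin g) => p.1 ^ (j : ℕ) * p.2.1 / p.2.2 := ⟨_, rfl⟩
  obtain ⟨η₁, hη₁, h1⟩ := unif hcK Φ (by
    rintro _ ⟨s, rfl⟩
    rw [hΦ]
    refine continuousAt_pi.2 fun j => ?_
    refine ContinuousAt.div ?_ ?_ ?_
    · exact ((continuous_fst.pow _).mul (continuous_fst.comp continuous_snd)).continuousAt
    · exact (continuous_snd.comp continuous_snd).continuousAt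
    · rw [hc]
      exact γ.ne s) (half_pos hε)
  -- the lift
  obtain ⟨Ψ, hΨ⟩ : ∃ Ψ : ℂ × ℂ × ℂ → ℂ × ℂ,
      Ψ = fun (p : ℂ × ℂ × ℂ) => (p.2.2 * sqr (D.eval p.1 / D.eval p.2.1), D.eval p.1 / D.eval p.2.1) := ⟨_, rfl⟩
  obtain ⟨η₂, hη₂, h2⟩ := unif hdK Ψ (by
    rintro _ ⟨s, rfl⟩
    have hu : ContinuousAt (fun p : ℂ × ℂ × ℂ => D.eval p.1 / D.eval p.2.1) (d s) := by
      refine ContinuousAt.div ?_ ?_ ?_
      · exact (hD.comp continuous_fst).continuousAt
      · exact (hD.comp (continuous_fst.comp continuous_snd)).continuousAt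
      · rw [hd]
        exact hDne s
    have hu1 : D.eval (d s).1 / D.eval (d s).2.1 = 1 := by
      rw [hd]
      exact div_self (hDne s)
    have hsq : ContinuousAt (fun p : ℂ × ℂ × ℂ => sqr (D.eval p.1 / D.eval p.2.1)) (d s) := by
      refine ContinuousAt.comp (g := sqr) (f := fun p : ℂ × ℂ × ℂ => D.eval p.1 / D.eval p.2.1)
        ?_ hu
      exact sqr_cont (by rw [hu1]; exact Complex.one_mem_slitPlane)
    rw [hΨ]
    exact ((continuous_snd.comp continuous_snd).continuousAt.mul hsq).prodMk hu)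
    (lt_min hη₁ one_pos)
  refine ⟨min (η₁ / 2) (η₂ / 2), lt_min (half_pos hη₁) (half_pos hη₂), ?_⟩
  intro x hx hxp hxc hxd
  have hk : ∀ s, dist (γ.y s) (γ.y s * sqr (D.eval (x s) / D.eval (γ.x s))) < η₁ ∧
      D.eval (x s) / D.eval (γ.x s) ∈ Complex.slitPlane := by
    intro s
    have h3 : dist (d s) (x s, γ.x s, γ.y s) < η₂ := by
      rw [hd, Prod.dist_eq, dist_self, max_lt_iff]
      refine ⟨?_, hη₂⟩
      rw [dist_comm, dist_eq_norm]
      have h4 := (hxc s).trans (min_le_right _ _)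
      linarith
    have h4 := h2 (d s) ⟨s, rfl⟩ _ h3
    have h5 : Ψ (d s) = (γ.y s, 1) := by
      rw [hΨ, hd]
      simp only [div_self (hDne s), sqr_one, mul_one]
    rw [h5, hΨ, Prod.dist_eq, max_lt_iff] at h4
    exact ⟨h4.1.trans_le (min_le_left _ _), slit (h4.2.trans_le (min_le_right _ _))⟩
  obtain ⟨γ', hγ'x, hγ'y⟩ : ∃ γ' : Lp D, γ'.x = x ∧
      γ'.y = fun s => γ.y s * sqr (D.eval (x s) / D.eval (γ.x s)) :=
    ⟨{ x := x
       y := fun s => γ.y s * sqr (D.eval (x s) / D.eval (γ.x s))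
       contDiff_x := hx
       contDiff_y := γ.contDiff_y.mul (smooth_sqr (by
        simp only [div_eq_mul_inv]
        exact (smooth_eval D hx).mul ((smooth_eval D γ.contDiff_x).inv hDne)) fun s => (hk s).2)
       periodic_x := hxp
       periodic_y := fun s => by simp only [γ.periodic_x, γ.periodic_y, hxp]
       eq := fun s => by
        rw [mul_pow, sqr_sq (Complex.slitPlane_ne_zero (hk s).2), γ.eq s,
          mul_div_cancel₀ _ (hDne s)]
       ne := fun s => mul_ne_zero (γ.ne s) (sqr_ne _) }, rfl, rfl⟩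
  refine ⟨γ', hγ'x, fun j hj => ?_⟩
  have hdx' : Continuous (deriv x) := hx.continuous_deriv (by norm_num)
  have hclose : ∀ s, ‖(X ^ j : ℂ[X]).eval (γ'.x s) * deriv γ'.x s / γ'.y s -
      (X ^ j : ℂ[X]).eval (γ.x s) * deriv γ.x s / γ.y s‖ ≤ ε / 2 := by
    intro s
    have h3 : dist (c s) (x s, deriv x s, γ'.y s) < η₁ := by
      rw [hc, Prod.dist_eq, Prod.dist_eq, max_lt_iff, max_lt_iff]
      refine ⟨?_, ?_, ?_⟩
      · rw [dist_comm, dist_eq_norm]
        have h4 := (hxc s).trans (min_le_left _ _)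
        linarith
      · rw [dist_comm, dist_eq_norm]
        have h4 := (hxd s).trans (min_le_left _ _)
        linarith
      · rw [hγ'y]
        exact (hk s).1
    have h4 := h1 (c s) ⟨s, rfl⟩ _ h3
    have h5 := (dist_le_pi_dist (Φ (c s)) (Φ (x s, deriv x s, γ'.y s)) ⟨j, hj⟩).trans h4.le
    rw [hΦ, hc, dist_comm, dist_eq_norm] at h5
    rw [eval_pow, eval_X, eval_pow, eval_X, hγ'x]
    exact h5
  have hint : ∀ γ₀ : Lp D, IntervalIntegrable
      (fun s => (X ^ j : ℂ[X]).eval (γ₀.x s) * deriv γ₀.x s / γ₀.y s) volume 0 1 := by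
    intro γ₀
    refine Continuous.intervalIntegrable ?_ _ _
    have h6 : Continuous (deriv γ₀.x) := γ₀.contDiff_x.continuous_deriv (by norm_num)
    exact (((X ^ j : ℂ[X]).continuous.comp γ₀.contDiff_x.continuous).mul h6).div
      γ₀.contDiff_y.continuous γ₀.ne
  unfold per
  rw [← intervalIntegral.integral_sub (hint γ') (hint γ)]
  have h7 := intervalIntegral.norm_integral_le_of_norm_le_const (a := (0 : ℝ)) (b := 1)
    (fun s _ => hclose s)
  refine lt_of_le_of_lt h7 ?_
  norm_num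
  linarith

end Pool.Agent.N76.LP
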