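import Pool.Agent.N76.LP.Stm

set_option autoImplicit false

/-!
# LP/LOCAL: small paths and the local primitive
-/

namespace Pool.Agent.N76.LP

open Polynomial MeasureTheory Set Filter Topology Module
open scoped Real

namespace LocalAux

/-- the parameter: `0` for `s ≤ 1/3` and `1` for `s ≥ 2/3` -/
noncomputable def φ (s : ℝ) : ℝ := Real.smoothTransition (3 * s - 1)

theorem φ_nonneg (s : ℝ) : 0 ≤ φ s := Real.smoothTransition.nonneg _

theorem φ_le (s : ℝ) : φ s ≤ 1 := Real.smoothTransition.le_one _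

theorem φ_left {s : ℝ} (hs : s ≤ 1 / 3) : φ s = 0 :=
  Real.smoothTransition.zero_of_nonpos (by linarith)

theorem φ_right {s : ℝ} (hs : 1 - 1 / 3 ≤ s) : φ s = 1 :=
  Real.smoothTransition.one_of_one_le (by linarith)

theorem contDiff_φ : ContDiff ℝ 2 φ := by
  have h : ContDiff ℝ 2 fun s : ℝ => 3 * s - 1 := by fun_prop
  have h2 : ContDiff ℝ 2 Real.smoothTransition := Real.smoothTransition.contDiff (n := 2)
  exact h2.comp h

/-- the segment from `x₀` to `x` -/
noncomputable def seg (x₀ x : ℂ) (s : ℝ) : ℂ := x₀ + (φ s : ℂ) * (x - x₀)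

theorem contDiff_seg (x₀ x : ℂ) : ContDiff ℝ 2 (seg x₀ x) := by
  have h : ContDiff ℝ 2 fun s : ℝ => (φ s : ℂ) := Complex.ofRealCLM.contDiff.comp contDiff_φ
  exact contDiff_const.add (h.mul contDiff_const)

theorem seg_mem {x₀ x : ℂ} {δ : ℝ} (hx : x ∈ Metric.ball x₀ δ) (s : ℝ) :
    seg x₀ x s ∈ Metric.ball x₀ δ := by
  rw [Metric.mem_ball, dist_eq_norm] at hx ⊢
  have h1 : seg x₀ x s - x₀ = (φ s : ℂ) * (x - x₀) := by rw [seg]; ring
  rw [h1, norm_mul, Complex.norm_real, Real.norm_of_nonneg (φ_nonneg s)]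
  have h2 := φ_le s
  have h3 := norm_nonneg (x - x₀)
  have h4 := φ_nonneg s
  nlinarith

theorem seg_left {x₀ x : ℂ} {s : ℝ} (hs : s ≤ 1 / 3) : seg x₀ x s = x₀ := by
  rw [seg, φ_left hs]; simp

theorem seg_right {x₀ x : ℂ} {s : ℝ} (hs : 1 - 1 / 3 ≤ s) : seg x₀ x s = x := by
  rw [seg, φ_right hs]; simp

end LocalAux

open LocalAux in
theorem local_ : S_LOCAL := by
  rintro D q ⟨x₀, y₀⟩ ⟨h0, hy⟩
  simp only at h0 hy
  have hD : D.eval x₀ ≠ 0 := by
    rw [← h0]; exact pow_ne_zero 2 hy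
  -- the radius
  have hcont : Continuous fun x : ℂ => D.eval x / D.eval x₀ :=
    D.continuous.div_const _
  obtain ⟨δ, hδ, hball⟩ : ∃ δ : ℝ, 0 < δ ∧ ∀ x ∈ Metric.ball x₀ δ,
      D.eval x / D.eval x₀ ∈ Complex.slitPlane := by
    have h1 : (fun x : ℂ => D.eval x / D.eval x₀) ⁻¹' Complex.slitPlane ∈ 𝓝 x₀ := by
      refine (Complex.isOpen_slitPlane.preimage hcont).mem_nhds ?_
      rw [mem_preimage, div_self hD]
      exact Complex.one_mem_slitPlane
    obtain ⟨δ, hδ, h2⟩ := Metric.mem_nhds_iff.1 h1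
    exact ⟨δ, hδ, fun x hx => h2 hx⟩
  let Y : ℂ → ℂ := fun x => y₀ * (D.eval x / D.eval x₀) ^ (((2 : ℕ) : ℂ)⁻¹)
  have hYsq : ∀ x, Y x ^ 2 = D.eval x := by
    intro x
    have h1 : Y x ^ 2 = y₀ ^ 2 * ((D.eval x / D.eval x₀) ^ (((2 : ℕ) : ℂ)⁻¹)) ^ 2 := mul_pow _ _ _
    rw [h1, Complex.cpow_nat_inv_pow _ two_ne_zero, h0]
    field_simp
  have hYdiff : DifferentiableOn ℂ Y (Metric.ball x₀ δ) := by
    intro x hx
    have h1 : DifferentiableAt ℂ (fun x : ℂ => D.eval x / D.eval x₀) x :=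
      D.differentiable.differentiableAt.div_const _
    exact ((h1.cpow_const (hball x hx)).const_mul y₀).differentiableWithinAt
  have hDne : ∀ x ∈ Metric.ball x₀ δ, D.eval x ≠ 0 := by
    intro x hx h
    have := hball x hx
    rw [h, zero_div] at this
    exact Complex.slitPlane_ne_zero this rfl
  have hYne : ∀ x ∈ Metric.ball x₀ δ, Y x ≠ 0 := by
    intro x hx h
    have := hYsq x
    rw [h] at this
    exact hDne x hx (by rw [← this]; simp)
  have hY0 : Y x₀ = y₀ := by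
    have : Y x₀ = y₀ * (D.eval x₀ / D.eval x₀) ^ (((2 : ℕ) : ℂ)⁻¹) := rfl
    rw [this, div_self hD, Complex.one_cpow, mul_one]
  have hfdiff : DifferentiableOn ℂ (fun x => q.eval x / Y x) (Metric.ball x₀ δ) :=
    q.differentiable.differentiableOn.div hYdiff hYne
  obtain ⟨G, hG⟩ := hfdiff.isExactOn_ball
  have hYC : ContDiffOn ℝ 2 Y (Metric.ball x₀ δ) :=
    (hYdiff.contDiffOn Metric.isOpen_ball).restrict_scalars ℝ
  refine ⟨δ, Y, G, hδ, hY0, hYdiff.continuousOn, fun x hx => ⟨⟨hYsq x, hYne x hx⟩, hG x hx, ?_⟩⟩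
  let c : Pth D (x₀, y₀) (x, Y x) :=
    { x := seg x₀ x
      y := fun s => Y (seg x₀ x s)
      contDiff_x := contDiff_seg x₀ x
      contDiff_y := hYC.comp_contDiff (contDiff_seg x₀ x) (seg_mem hx)
      eq := fun s => hYsq _
      ne := fun s => hYne _ (seg_mem hx s)
      left := ⟨1 / 3, by norm_num, fun s hs => by
        rw [seg_left hs]; exact ⟨rfl, hY0⟩⟩
      right := ⟨1 / 3, by norm_num, fun s hs => by
        rw [seg_right hs]; exact ⟨rfl, rfl⟩⟩ }
  refine ⟨c, ?_⟩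
  have hder : ∀ s : ℝ, HasDerivAt (fun s => G (seg x₀ x s))
      (q.eval (c.x s) * deriv c.x s / c.y s) s := by
    intro s
    have h1 : HasDerivAt (seg x₀ x) (deriv (seg x₀ x) s) s :=
      ((contDiff_seg x₀ x).differentiable (by norm_num)).differentiableAt.hasDerivAt
    have h2 := (hG _ (seg_mem hx s)).comp s h1
    have h3 : q.eval (c.x s) * deriv c.x s / c.y s =
        q.eval (seg x₀ x s) / Y (seg x₀ x s) * deriv (seg x₀ x) s := by
      change q.eval (seg x₀ x s) * deriv (seg x₀ x) s / Y (seg x₀ x s) = _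
      ring
    rw [h3]
    exact h2
  have hcontI : Continuous fun s : ℝ => q.eval (c.x s) * deriv c.x s / c.y s := by
    refine Continuous.div ?_ c.contDiff_y.continuous c.ne
    refine Continuous.mul (q.continuous.comp c.contDiff_x.continuous) ?_
    exact c.contDiff_x.continuous_deriv (by norm_num)
  have h1 : c.int q = G (seg x₀ x 1) - G (seg x₀ x 0) :=
    intervalIntegral.integral_eq_sub_of_hasDerivAt (fun s _ => hder s)
      (hcontI.intervalIntegrable _ _)
  rw [h1, seg_right (by norm_num), seg_left (by norm_num)]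

end Pool.Agent.N76.LP
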