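import Pool.Agent.N76.LP.Stm

set_option autoImplicit false

/-!
# The maximum principle on the hyperelliptic curve
-/

namespace Pool.Agent.N76.LP

open Polynomial MeasureTheory Set Filter Topology Module
open Pool.Agent.Y94.R (Lp)
open scoped Real

namespace MaxAux

/-- A holomorphic function whose real part has a local maximum is constant. -/
lemma deriv_zero {G g : ℂ → ℂ} {a : ℂ} (hG : ∀ᶠ x in 𝓝 a, HasDerivAt G (g x) x)
    (hmax : ∀ᶠ x in 𝓝 a, (G x).re ≤ (G a).re) : ∀ᶠ x in 𝓝 a, g x = 0 := by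
  have h1 : ∀ᶠ z in 𝓝 a, DifferentiableAt ℂ (fun x => Complex.exp (G x)) z := by
    filter_upwards [hG] with z hz
    exact hz.differentiableAt.cexp
  have h2 : IsLocalMax (norm ∘ fun x => Complex.exp (G x)) a := by
    filter_upwards [hmax] with z hz
    simp only [Function.comp_apply, Complex.norm_exp]
    exact Real.exp_le_exp.2 hz
  have h3 := Complex.eventually_eq_of_isLocalMax_norm h1 h2
  filter_upwards [h3.eventually_nhds, hG] with z hz hGz
  have h4 : HasDerivAt (fun x => Complex.exp (G x)) (Complex.exp (G z) * g z) z := hGz.cexp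
  have h5 : HasDerivAt (fun x => Complex.exp (G x)) 0 z :=
    (hasDerivAt_const z (Complex.exp (G a))).congr_of_eventuallyEq hz
  have h6 := h4.unique h5
  rcases mul_eq_zero.1 h6 with h | h
  · exact absurd h (Complex.exp_ne_zero _)
  · exact h

lemma eq_zero_of_nhds {q : ℂ[X]} {a : ℂ} (hs : ∀ᶠ x in 𝓝 a, q.eval x = 0) : q = 0 := by
  apply Polynomial.eq_zero_of_infinite_isRoot
  exact infinite_of_mem_nhds a hs

lemma pts_neg {D : ℂ[X]} {p : ℂ × ℂ} (hp : p ∈ Pts D) : (p.1, -p.2) ∈ Pts D := by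
  refine ⟨?_, ?_⟩
  · simpa using hp.1
  · simpa using hp.2

lemma of_max (hL : S_LOCAL) {D q : ℂ[X]} {h : ℂ × ℂ → ℝ} (hP : Pot D q h) {p0 : ℂ × ℂ}
    (hp0 : p0 ∈ Pts D) (hmax : ∀ p ∈ Pts D, |h p| ≤ |h p0|) : q = 0 := by
  obtain ⟨p, hp, hpos⟩ : ∃ p ∈ Pts D, h p = |h p0| := by
    rcases le_total 0 (h p0) with h1 | h1
    · exact ⟨p0, hp0, (abs_of_nonneg h1).symm⟩
    · exact ⟨_, pts_neg hp0, by rw [hP.1 p0 hp0, abs_of_nonpos h1]⟩
  obtain ⟨δ, Y, G, hδ, hY0, hYc, hx⟩ := hL D q p hp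
  have hball : ∀ᶠ x in 𝓝 p.1, x ∈ Metric.ball p.1 δ := Metric.ball_mem_nhds _ hδ
  have h1 := deriv_zero (G := G) (g := fun x => q.eval x / Y x) (a := p.1)
    (by filter_upwards [hball] with x hxb using (hx x hxb).2.1) (by
      filter_upwards [hball] with x hxb
      obtain ⟨h2, -, c, hc⟩ := hx x hxb
      have h3 := hP.2 p hp _ h2 c
      rw [hc, Complex.sub_re] at h3
      have h4 := (le_abs_self _).trans (hmax _ h2)
      linarith)
  apply eq_zero_of_nhds (a := p.1)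
  filter_upwards [h1, hball] with x h2 hxb
  rcases div_eq_zero_iff.1 h2 with h3 | h3
  · exact h3
  · exact absurd h3 (hx x hxb).1.2

/-- The potential is continuous. -/
lemma cont (hL : S_LOCAL) {D q : ℂ[X]} {h : ℂ × ℂ → ℝ} (hP : Pot D q h) :
    ContinuousOn h (Pts D) := by
  intro p hp
  obtain ⟨δ, Y, G, hδ, hY0, hYc, hx⟩ := hL D q p hp
  have hball : Metric.ball p.1 δ ∈ 𝓝 p.1 := Metric.ball_mem_nhds _ hδ
  have hYat : ContinuousAt Y p.1 := hYc.continuousAt hball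
  have hG : ContinuousAt G p.1 := (hx p.1 (Metric.mem_ball_self hδ)).2.1.continuousAt
  have hY2 : ContinuousAt (fun r : ℂ × ℂ => Y r.1) p :=
    ContinuousAt.comp (g := Y) (f := Prod.fst) hYat continuousAt_fst
  have hG2 : ContinuousAt (fun r : ℂ × ℂ => G r.1) p :=
    ContinuousAt.comp (g := G) (f := Prod.fst) hG continuousAt_fst
  have h1 : ContinuousAt (fun r : ℂ × ℂ => r.2 + Y r.1) p := continuousAt_snd.add hY2
  have h2 : ∀ᶠ r : ℂ × ℂ in 𝓝 p, r.2 + Y r.1 ≠ 0 := by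
    refine h1.eventually_ne ?_
    rw [hY0, ← two_mul]
    exact mul_ne_zero two_ne_zero hp.2
  have h3 : ∀ᶠ r : ℂ × ℂ in 𝓝 p, r.1 ∈ Metric.ball p.1 δ := continuousAt_fst.eventually hball
  have h4 : ContinuousAt (fun r : ℂ × ℂ => h p + (G r.1 - G p.1).re) p :=
    continuousAt_const.add
      (Complex.continuous_re.continuousAt.comp (hG2.sub continuousAt_const))
  refine ContinuousWithinAt.congr_of_eventuallyEq (f := fun r => h p + (G r.1 - G p.1).re)
    h4.continuousWithinAt ?_ ?_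
  · have h5 : ∀ᶠ r in 𝓝[Pts D] p, r ∈ Pts D := self_mem_nhdsWithin
    filter_upwards [h5, nhdsWithin_le_nhds h2, nhdsWithin_le_nhds h3] with r hr h6 h7
    obtain ⟨h8, -, c, hc⟩ := hx r.1 h7
    have h9 : (r.2 - Y r.1) * (r.2 + Y r.1) = 0 := by
      have e1 : r.2 ^ 2 = D.eval r.1 := hr.1
      have e2 : (Y r.1) ^ 2 = D.eval r.1 := h8.1
      linear_combination e1 - e2
    have h10 : r.2 = Y r.1 := by
      rcases mul_eq_zero.1 h9 with h | h
      · exact sub_eq_zero.1 h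
      · exact absurd h h6
    have h11 := hP.2 p hp _ h8 c
    rw [hc, ← h10] at h11
    have h12 : h r = h (r.1, r.2) := rfl
    rw [h12]
    linarith
  · simp

/-- Near a branch point the potential is small. -/
lemma near_branch (hW : S_SWITCH) {D q : ℂ[X]} (hD : Squarefree D) {h : ℂ × ℂ → ℝ}
    (hP : Pot D q h) {e : ℂ} (he : D.eval e = 0) {η : ℝ} (hη : 0 < η) :
    ∃ δ : ℝ, 0 < δ ∧ ∀ p ∈ Pts D, ‖p.1 - e‖ < δ → |h p| < η := by
  obtain ⟨δ, B, hδ, hc⟩ := hW D q hD e he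
  have h1 : Tendsto (fun t : ℝ => B * Real.sqrt t) (𝓝 0) (𝓝 0) := by
    have h2 : Continuous fun t : ℝ => B * Real.sqrt t := by fun_prop
    have h3 := h2.tendsto 0
    simpa using h3
  have h4 : ∀ᶠ t in 𝓝 (0 : ℝ), B * Real.sqrt t < 2 * η :=
    h1.eventually (gt_mem_nhds (by linarith))
  obtain ⟨δ', hδ', h5⟩ := Metric.eventually_nhds_iff.1 h4
  refine ⟨min δ δ', lt_min hδ hδ', fun p hp hpe => ?_⟩
  obtain ⟨c, h6⟩ := hc p hp (hpe.trans_le (min_le_left _ _))
  have h7 := hP.2 p hp _ (pts_neg hp) c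
  rw [hP.1 p hp] at h7
  have h8 : |(c.int q).re| ≤ B * Real.sqrt ‖p.1 - e‖ := (Complex.abs_re_le_norm _).trans h6
  have h9 : B * Real.sqrt ‖p.1 - e‖ < 2 * η := by
    apply h5
    rw [Real.dist_eq, sub_zero, abs_of_nonneg (norm_nonneg _)]
    exact hpe.trans_le (min_le_right _ _)
  rw [← h7, show -h p - h p = -(2 * h p) by ring, abs_neg, abs_mul, abs_two] at h8
  linarith

/-- Near infinity. -/
lemma near_infty {D q : ℂ[X]} {h : ℂ × ℂ → ℝ} (hP : Pot D q h) {ρ κ : ℝ} {Y K : ℂ → ℂ}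
    (hρ : 0 < ρ) (hK0 : K 0 = 0) (hK : ContinuousAt K 0)
    (hY : ∀ w ∈ Metric.ball (0 : ℂ) ρ, w ≠ 0 →
      (w⁻¹, Y w) ∈ Pts D ∧ h (w⁻¹, Y w) = κ + (K w).re) {η : ℝ} (hη : |κ| < η) :
    ∃ R : ℝ, ∀ p ∈ Pts D, R < ‖p.1‖ → |h p| < η := by
  have h1 : ContinuousAt (fun w => |κ + (K w).re|) 0 :=
    (continuousAt_const.add (Complex.continuous_re.continuousAt.comp hK)).abs
  have h2 : ∀ᶠ w in 𝓝 (0 : ℂ), |κ + (K w).re| < η := by
    apply h1.eventually_lt continuousAt_const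
    rw [hK0]
    simpa using hη
  obtain ⟨δ, hδ, h3⟩ := Metric.eventually_nhds_iff.1 h2
  refine ⟨max ρ⁻¹ δ⁻¹, fun p hp hR => ?_⟩
  have h4 : ρ⁻¹ < ‖p.1‖ := (le_max_left _ _).trans_lt hR
  have h5 : δ⁻¹ < ‖p.1‖ := (le_max_right _ _).trans_lt hR
  have hpos : 0 < ‖p.1‖ := (inv_pos.2 hρ).trans h4
  have hne : p.1 ≠ 0 := norm_pos_iff.1 hpos
  have h6 : p.1⁻¹ ∈ Metric.ball (0 : ℂ) ρ := by
    rw [mem_ball_zero_iff, norm_inv]
    exact inv_lt_of_inv_lt₀ hρ h4
  have h7 : dist p.1⁻¹ 0 < δ := by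
    rw [dist_zero_right, norm_inv]
    exact inv_lt_of_inv_lt₀ hδ h5
  obtain ⟨h8, h9⟩ := hY _ h6 (inv_ne_zero hne)
  rw [inv_inv] at h8 h9
  have h10 : |h p| = |h (p.1, Y p.1⁻¹)| := by
    have e1 : p.2 ^ 2 = D.eval p.1 := hp.1
    have e2 : (Y p.1⁻¹) ^ 2 = D.eval p.1 := h8.1
    have e3 : (p.2 - Y p.1⁻¹) * (p.2 + Y p.1⁻¹) = 0 := by linear_combination e1 - e2
    rcases mul_eq_zero.1 e3 with e4 | e4
    · have e5 : p = (p.1, Y p.1⁻¹) := Prod.ext rfl (sub_eq_zero.1 e4)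
      exact congrArg (fun z => |h z|) e5
    · have e5 : p = (p.1, -Y p.1⁻¹) := Prod.ext rfl (eq_neg_of_add_eq_zero_left e4)
      have e6 := hP.1 _ h8
      have e7 : h p = h (p.1, -Y p.1⁻¹) := congrArg h e5
      rw [e7]
      have e8 : h (p.1, -Y p.1⁻¹) = -h (p.1, Y p.1⁻¹) := e6
      rw [e8, abs_neg]
  rw [h10, h9]
  exact h3 h7

end MaxAux

open MaxAux in
/-- **The maximum principle.** -/
theorem max_ (hL : S_LOCAL) (hW : S_SWITCH) (hI : S_INFTY) : S_MAX := by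
  intro D q g h hD hdeg hq hP
  obtain ⟨ρ, κ, Y, K, k, hρ, hK0, hK, hk, hY⟩ := hI D q g h hdeg hq hP
  have hKc : ContinuousAt K 0 := (hK 0 (Metric.mem_ball_self hρ)).continuousAt
  have hball : ∀ᶠ w in 𝓝 (0 : ℂ), w ∈ Metric.ball (0 : ℂ) ρ := Metric.ball_mem_nhds _ hρ
  by_cases hcase : ∀ p ∈ Pts D, |h p| ≤ |κ|
  · -- the maximum is attained at infinity
    obtain ⟨ε, hε, hεκ, hε1⟩ : ∃ ε : ℝ, ε ≠ 0 ∧ ε * κ = |κ| ∧ ∀ t : ℝ, ε * t ≤ |t| := by
      rcases le_total 0 κ with h1 | h1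
      · exact ⟨1, one_ne_zero, by rw [one_mul, abs_of_nonneg h1], fun t => by
          rw [one_mul]; exact le_abs_self t⟩
      · exact ⟨-1, by norm_num, by rw [neg_one_mul, abs_of_nonpos h1], fun t => by
          rw [neg_one_mul]; exact neg_le_abs t⟩
    have h1 := deriv_zero (G := fun w => (ε : ℂ) * K w) (g := fun w => (ε : ℂ) * k w) (a := 0)
      (by filter_upwards [hball] with w hw using (hK w hw).const_mul _) (by
        filter_upwards [hball] with w hw
        rw [hK0, mul_zero, Complex.zero_re, Complex.re_ofReal_mul]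
        by_cases hw0 : w = 0
        · rw [hw0, hK0, Complex.zero_re, mul_zero]
        · obtain ⟨h2, h3⟩ := hY w hw hw0
          have h4 := hcase _ h2
          have h5 := hε1 (h (w⁻¹, Y w))
          rw [h3, mul_add, hεκ] at h5
          rw [h3] at h4
          linarith)
    have h2 : ∀ᶠ w in 𝓝[≠] (0 : ℂ), q.eval w⁻¹ = 0 := by
      filter_upwards [nhdsWithin_le_nhds h1, nhdsWithin_le_nhds hball, self_mem_nhdsWithin]
        with w h3 h4 h5
      refine hk w h4 ?_ h5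
      rcases mul_eq_zero.1 h3 with h6 | h6
      · exact absurd (Complex.ofReal_eq_zero.1 h6) hε
      · exact h6
    apply Polynomial.eq_zero_of_infinite_isRoot
    have h3 : {w : ℂ | q.eval w⁻¹ = 0}.Infinite := fun hfin =>
      (infinite_of_mem_nhds (0 : ℂ) (insert_mem_nhds_iff.2 h2)) (hfin.insert 0)
    have h4 : ((fun w : ℂ => w⁻¹) '' {w : ℂ | q.eval w⁻¹ = 0}).Infinite :=
      h3.image inv_injective.injOn
    refine h4.mono ?_
    rintro _ ⟨w, hw, rfl⟩
    exact hw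
  · -- the maximum is attained at a finite point
    push Not at hcase
    obtain ⟨p1, hp1, hκ⟩ := hcase
    have hη : 0 < |h p1| := (abs_nonneg _).trans_lt hκ
    choose! δ hδ hδ1 using fun (e : ℂ) (he : D.eval e = 0) => near_branch hW hD hP he hη
    obtain ⟨R, hR⟩ := near_infty hP hρ hK0 hKc hY hκ
    set C : Set (ℂ × ℂ) := {p | p.2 ^ 2 = D.eval p.1 ∧ (∀ e, D.eval e = 0 → δ e ≤ ‖p.1 - e‖) ∧
      ‖p.1‖ ≤ R} with hC
    have hCP : C ⊆ Pts D := by
      rintro p ⟨h1, h2, -⟩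
      refine ⟨h1, fun h0 => ?_⟩
      rw [h0, zero_pow two_ne_zero] at h1
      have h3 := h2 p.1 h1.symm
      rw [sub_self, norm_zero] at h3
      exact absurd (hδ p.1 h1.symm) (not_lt.2 h3)
    have hout : ∀ p ∈ Pts D, p ∉ C → |h p| < |h p1| := by
      intro p hp hpC
      by_contra hcon
      apply hpC
      refine ⟨hp.1, fun e he => ?_, ?_⟩
      · by_contra h1
        exact hcon (hδ1 e he p hp (not_le.1 h1))
      · by_contra h1
        exact hcon (hR p hp (not_le.1 h1))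
    have hp1C : p1 ∈ C := by
      by_contra h1
      exact lt_irrefl _ (hout p1 hp1 h1)
    have hclosed : IsClosed C := by
      have h1 : IsClosed {p : ℂ × ℂ | p.2 ^ 2 = D.eval p.1} :=
        isClosed_eq (by fun_prop) (D.continuous.comp continuous_fst)
      have h2 : IsClosed {p : ℂ × ℂ | ∀ e, D.eval e = 0 → δ e ≤ ‖p.1 - e‖} := by
        have : {p : ℂ × ℂ | ∀ e, D.eval e = 0 → δ e ≤ ‖p.1 - e‖} =
            ⋂ e, ⋂ (_ : D.eval e = 0), {p : ℂ × ℂ | δ e ≤ ‖p.1 - e‖} := by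
          ext p; simp
        rw [this]
        exact isClosed_iInter fun e => isClosed_iInter fun _ =>
          isClosed_le continuous_const (by fun_prop)
      have h3 : IsClosed {p : ℂ × ℂ | ‖p.1‖ ≤ R} := isClosed_le (by fun_prop) continuous_const
      exact h1.inter (h2.inter h3)
    obtain ⟨M, hM⟩ := (isCompact_closedBall (0 : ℂ) R).exists_bound_of_continuousOn
      (f := fun x => D.eval x) D.continuous.continuousOn
    have hcomp : IsCompact C := by
      refine ((isCompact_closedBall (0 : ℂ) R).prod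
        (isCompact_closedBall (0 : ℂ) (M + 1))).of_isClosed_subset hclosed ?_
      rintro p ⟨h1, -, h3⟩
      have h4 : p.1 ∈ Metric.closedBall (0 : ℂ) R := mem_closedBall_zero_iff.2 h3
      refine ⟨h4, mem_closedBall_zero_iff.2 ?_⟩
      have h5 := hM p.1 h4
      rw [← h1, norm_pow] at h5
      nlinarith [norm_nonneg p.2, sq_nonneg (‖p.2‖ - 1)]
    obtain ⟨p0, hp0, hmax⟩ := hcomp.exists_isMaxOn ⟨p1, hp1C⟩ ((cont hL hP).mono hCP).abs
    refine of_max hL hP (hCP hp0) fun p hp => ?_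
    by_cases hpC : p ∈ C
    · exact hmax hpC
    · exact (hout p hp hpC).le.trans (hmax hp1C)

end Pool.Agent.N76.LP
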