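import Pool.Agent.N76.LP.Stm

set_option autoImplicit false

/-!
Project LP (helper76), part POT (helper698): the potential.
-/

namespace Pool.Agent.N76.LP

open Polynomial MeasureTheory Set Filter Topology Module
open Pool.Agent.Y94.R (Lp)
open scoped Real

namespace PotAux

theorem exists_pt {D : ℂ[X]} (hdeg : 0 < D.natDegree) : ∃ p : ℂ × ℂ, p ∈ Pts D := by
  have hD : D ≠ 0 := by
    rintro rfl
    simp at hdeg
  have h1 : ∃ x : ℂ, D.eval x ≠ 0 := by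
    by_contra hcon
    push Not at hcon
    exact hD (Polynomial.funext fun x => by rw [hcon x, Polynomial.eval_zero])
  obtain ⟨x, hx⟩ := h1
  obtain ⟨y, hy⟩ := IsAlgClosed.exists_pow_nat_eq (D.eval x) (n := 2) (by norm_num)
  refine ⟨(x, y), hy, ?_⟩
  rintro h
  apply hx
  rw [← hy]
  have : y = 0 := h
  rw [this]
  norm_num

theorem neg_mem {D : ℂ[X]} {p : ℂ × ℂ} (hp : p ∈ Pts D) : (p.1, -p.2) ∈ Pts D := by
  refine ⟨?_, ?_⟩
  · show (-p.2) ^ 2 = D.eval p.1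
    rw [neg_sq]
    exact hp.1
  · show -p.2 ≠ 0
    exact neg_ne_zero.2 hp.2

end PotAux

theorem pot (hT : S_TRANS) (hS : S_SYM) (hC : S_CLOSE) (hN : S_CONN) : S_POT := by
  classical
  intro D q hsf hdeg hper
  have hclosed : ∀ (p : ℂ × ℂ) (c : Pth D p p), (c.int q).re = 0 := by
    intro p c
    obtain ⟨γ, hγ⟩ := hC c
    rw [← hγ q]
    exact hper γ
  have hindep : ∀ (p p' : ℂ × ℂ) (c c' : Pth D p p'), (c.int q).re = (c'.int q).re := by
    intro p p' c c'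
    obtain ⟨d, hd⟩ := hS.1 c'
    obtain ⟨e, he⟩ := hT c d
    have h1 := hclosed p e
    rw [he q, hd q, Complex.add_re, Complex.neg_re] at h1
    linarith
  obtain ⟨p₀, hp₀⟩ := PotAux.exists_pt hdeg
  let H : ℂ × ℂ → ℝ := fun p =>
    if h : p ∈ Pts D then ((hN D hsf hdeg p₀ hp₀ p h).some.int q).re else 0
  have hH0 : ∀ (p : ℂ × ℂ), p ∈ Pts D → ∀ c : Pth D p₀ p, H p = (c.int q).re := by
    intro p hp c
    have h1 : H p = ((hN D hsf hdeg p₀ hp₀ p hp).some.int q).re := dif_pos hp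
    rw [h1]
    exact hindep _ _ _ _
  have hH : ∀ p ∈ Pts D, ∀ p' ∈ Pts D, ∀ c : Pth D p p', H p' = H p + (c.int q).re := by
    intro p hp p' hp' c
    obtain ⟨c₁⟩ := hN D hsf hdeg p₀ hp₀ p hp
    obtain ⟨c₂, hc₂⟩ := hT c₁ c
    rw [hH0 p hp c₁, hH0 p' hp' c₂, hc₂ q, Complex.add_re]
  have hneg : ∀ p ∈ Pts D, H (p.1, -p.2) = H (p₀.1, -p₀.2) - (H p - H p₀) := by
    intro p hp
    obtain ⟨c⟩ := hN D hsf hdeg p₀ hp₀ p hp
    obtain ⟨c', hc'⟩ := hS.2 c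
    have h1 := hH p₀ hp₀ p hp c
    have h2 := hH _ (PotAux.neg_mem hp₀) _ (PotAux.neg_mem hp) c'
    rw [hc' q, Complex.neg_re] at h2
    rw [h2, h1]
    ring
  refine ⟨fun p => H p - (H (p₀.1, -p₀.2) + H p₀) / 2, ?_, ?_⟩
  · intro p hp
    show H (p.1, -p.2) - (H (p₀.1, -p₀.2) + H p₀) / 2 = -(H p - (H (p₀.1, -p₀.2) + H p₀) / 2)
    rw [hneg p hp]
    ring
  · intro p hp p' hp' c
    show H p' - (H (p₀.1, -p₀.2) + H p₀) / 2 - (H p - (H (p₀.1, -p₀.2) + H p₀) / 2) = _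
    rw [hH p hp p' hp' c]
    ring

end Pool.Agent.N76.LP
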