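import Pool.Agent.N76.LP.Stm

set_option autoImplicit false

/-!
# Project LP, part SPAN: linear algebra (helper701)
-/

namespace Pool.Agent.N76.LP

open Polynomial MeasureTheory Set Filter Topology Module
open Pool.Agent.Y94.R (Lp)
open scoped Real

namespace SpanAux

theorem cont_int {D : ℂ[X]} (γ : Lp D) (q : ℂ[X]) :
    Continuous fun s => q.eval (γ.x s) * deriv γ.x s / γ.y s := by
  refine Continuous.div ?_ γ.contDiff_y.continuous γ.ne
  exact (q.continuous.comp γ.contDiff_x.continuous).mul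
    (γ.contDiff_x.continuous_deriv (by norm_num))

theorem per_sum {D : ℂ[X]} (γ : Lp D) {g : ℕ} (a : Fin g → ℂ) :
    per γ (∑ j : Fin g, C (a j) * X ^ (j : ℕ)) = ∑ j : Fin g, a j * per γ (X ^ (j : ℕ)) := by
  unfold per
  have e : ∀ s : ℝ, (∑ j : Fin g, C (a j) * X ^ (j : ℕ) : ℂ[X]).eval (γ.x s) * deriv γ.x s / γ.y s =
      ∑ j : Fin g, a j * ((X ^ (j : ℕ) : ℂ[X]).eval (γ.x s) * deriv γ.x s / γ.y s) := by
    intro s
    rw [eval_finsetSum, Finset.sum_mul, Finset.sum_div]
    refine Finset.sum_congr rfl fun j _ => ?_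
    rw [eval_mul, eval_C]
    ring
  simp only [e]
  have hi : ∀ j ∈ (Finset.univ : Finset (Fin g)), IntervalIntegrable
      (fun s => a j * ((X ^ (j : ℕ) : ℂ[X]).eval (γ.x s) * deriv γ.x s / γ.y s)) volume 0 1 :=
    fun j _ => (continuous_const.mul (cont_int γ _)).intervalIntegrable _ _
  rw [intervalIntegral.integral_finsetSum hi]
  refine Finset.sum_congr rfl fun j _ => ?_
  rw [intervalIntegral.integral_const_mul]

theorem func {g : ℕ} (φ : (Fin g → ℂ) →ₗ[ℝ] ℝ) (u : Fin g → ℂ) :
    φ u = (∑ j, ((φ (Pi.single j 1) : ℂ) - (φ (Pi.single j Complex.I) : ℂ) * Complex.I) * u j).re := by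
  classical
  have h1 : u = ∑ j, ((u j).re • (Pi.single j 1 : Fin g → ℂ) +
      (u j).im • (Pi.single j Complex.I : Fin g → ℂ)) := by
    funext k
    rw [Finset.sum_apply, Finset.sum_eq_single k]
    · rw [Pi.add_apply, Pi.smul_apply, Pi.smul_apply, Pi.single_eq_same, Pi.single_eq_same,
        Complex.real_smul, Complex.real_smul, mul_one]
      exact (Complex.re_add_im _).symm
    · intro j _ hj
      rw [Pi.add_apply, Pi.smul_apply, Pi.smul_apply, Pi.single_eq_of_ne' hj,
        Pi.single_eq_of_ne' hj, smul_zero, smul_zero, add_zero]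
    · intro h
      exact absurd (Finset.mem_univ _) h
  conv_lhs => rw [h1]
  rw [map_sum, Complex.re_sum]
  refine Finset.sum_congr rfl fun j _ => ?_
  rw [map_add, map_smul, map_smul, smul_eq_mul, smul_eq_mul]
  simp
  ring

theorem span_top {D : ℂ[X]} {g : ℕ} (hg : 0 < g)
    (h : ∀ q : ℂ[X], q.natDegree < g → (∀ γ : Lp D, (per γ q).re = 0) → q = 0) :
    Submodule.span ℝ (range fun (γ : Lp D) (j : Fin g) => per γ (X ^ (j : ℕ))) = ⊤ := by
  classical
  by_contra hne
  obtain ⟨φ, hφ0, hφ⟩ := Submodule.exists_le_ker_of_lt_top _ (lt_top_iff_ne_top.2 hne)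
  apply hφ0
  obtain ⟨a, ha⟩ : ∃ a : Fin g → ℂ, a = fun j => ((φ (Pi.single j 1) : ℂ) -
    (φ (Pi.single j Complex.I) : ℂ) * Complex.I) := ⟨_, rfl⟩
  have hf : ∀ u, φ u = (∑ j, a j * u j).re := by
    intro u
    rw [ha]
    exact func φ u
  have hq : (∑ j : Fin g, C (a j) * X ^ (j : ℕ) : ℂ[X]) = 0 := by
    refine h _ ?_ fun γ => ?_
    · by_cases h0 : (∑ j : Fin g, C (a j) * X ^ (j : ℕ) : ℂ[X]) = 0
      · rw [h0, natDegree_zero]
        exact hg
      · rw [natDegree_lt_iff_degree_lt h0]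
        exact degree_sum_fin_lt a
    · rw [per_sum, ← hf (fun j => per γ (X ^ (j : ℕ)))]
      exact LinearMap.mem_ker.1 (hφ (Submodule.subset_span ⟨γ, rfl⟩))
  have ha0 : ∀ j, a j = 0 := by
    intro j
    have h1 := congrArg (fun p : ℂ[X] => p.coeff (j : ℕ)) hq
    simp only [finsetSum_coeff, coeff_C_mul_X_pow, coeff_zero] at h1
    rw [Finset.sum_eq_single j] at h1
    · rwa [if_pos rfl] at h1
    · intro i _ hi
      exact if_neg fun h => hi (Fin.ext h.symm)
    · intro hj
      exact absurd (Finset.mem_univ _) hj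
  refine LinearMap.ext fun u => ?_
  rw [hf]
  simp [ha0]

end SpanAux

theorem span_ : S_SPAN := by
  classical
  intro D g h
  rcases Nat.eq_zero_or_pos g with hg | hg
  · subst hg
    have : IsEmpty (Fin (2 * 0)) := by
      rw [Nat.mul_zero]
      infer_instance
    exact ⟨fun l => isEmptyElim l, linearIndependent_empty_type⟩
  have htop := SpanAux.span_top hg h
  set v : Lp D → Fin g → ℂ := fun γ j => per γ (X ^ (j : ℕ)) with hv
  obtain ⟨B, hBt, hBspan, hB⟩ := exists_linearIndependent (K := ℝ) (t := range v)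
  have hBfin : Finite B := hB.finite
  have : Fintype B := Fintype.ofFinite B
  have hE : finrank ℝ (Fin g → ℂ) = 2 * g := by
    rw [finrank_pi_fintype]
    simp [mul_comm]
  have h4 : Fintype.card B = 2 * g := by
    have h5 := finrank_span_eq_card (R := ℝ) hB
    rw [Subtype.range_coe, hBspan, htop, finrank_top, hE] at h5
    exact h5.symm
  have e : Fin (2 * g) ≃ B := (Fintype.equivFinOfCardEq h4).symm
  choose b hb using fun j : Fin (2 * g) => hBt (e j).2
  refine ⟨b, ?_⟩
  have h5 : (fun (l : Fin (2 * g)) (j : Fin g) => per (b l) (X ^ (j : ℕ))) =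
      (fun x : B => (x : Fin g → ℂ)) ∘ e := by
    funext l
    exact hb l
  rw [h5]
  exact hB.comp e e.injective

end Pool.Agent.N76.LP
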