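import Pool.Agent.N76.LP.Stm

set_option autoImplicit false

/-!
# Project LP, part SWITCH: near a branch point the two sheets are joined by short paths (helper595)
-/

namespace Pool.Agent.N76.LP

open Polynomial MeasureTheory Set Filter Topology Module
open scoped Real

namespace SwitchAux

/-- the parameter -/
noncomputable def ph (s : ℝ) : ℝ := Real.smoothTransition (3 * s - 1)

lemma ph_contDiff : ContDiff ℝ 2 ph := Real.smoothTransition.contDiff.comp (by fun_prop)

lemma ph_zero {s : ℝ} (h : s ≤ 1 / 3) : ph s = 0 :=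
  Real.smoothTransition.zero_of_nonpos (by linarith)

lemma ph_one {s : ℝ} (h : 2 / 3 ≤ s) : ph s = 1 :=
  Real.smoothTransition.one_of_one_le (by linarith)

lemma ph_deriv_bound : ∃ Φ : ℝ, 0 ≤ Φ ∧ ∀ s ∈ Icc (0 : ℝ) 1, |deriv ph s| ≤ Φ := by
  have hc : Continuous (deriv ph) := ph_contDiff.continuous_deriv (by norm_num)
  obtain ⟨C, hC⟩ := isCompact_Icc.exists_bound_of_continuousOn (s := Icc (0 : ℝ) 1)
    hc.continuousOn
  exact ⟨max C 0, le_max_right _ _, fun s hs => (hC s hs).trans (le_max_left _ _)⟩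

/-- the circle -/
noncomputable def cx (e x0 : ℂ) (s : ℝ) : ℂ :=
  e + (x0 - e) * Complex.exp (2 * π * Complex.I * (ph s : ℂ))

/-- the second coordinate -/
noncomputable def cy (E : ℂ[X]) (e x0 y0 : ℂ) (s : ℝ) : ℂ :=
  y0 * Complex.exp (π * Complex.I * (ph s : ℂ)) *
    Complex.exp (Complex.log (E.eval (cx e x0 s) / E.eval x0) / 2)

lemma norm_exp_ph (s : ℝ) : ‖Complex.exp (2 * π * Complex.I * (ph s : ℂ))‖ = 1 := by
  have h : (2 * π * Complex.I * (ph s : ℂ) : ℂ) = ((2 * π * ph s : ℝ) : ℂ) * Complex.I := by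
    push_cast
    ring
  rw [h, Complex.norm_exp_ofReal_mul_I]

lemma norm_cx (e x0 : ℂ) (s : ℝ) : ‖cx e x0 s - e‖ = ‖x0 - e‖ := by
  unfold cx
  rw [add_sub_cancel_left, norm_mul, norm_exp_ph, mul_one]

lemma ph_ofReal : ContDiff ℝ 2 (fun s => ((ph s : ℝ) : ℂ)) :=
  Complex.ofRealCLM.contDiff.comp ph_contDiff

lemma cx_contDiff (e x0 : ℂ) : ContDiff ℝ 2 (cx e x0) := by
  unfold cx
  exact contDiff_const.add (contDiff_const.mul (contDiff_const.mul ph_ofReal).cexp)

lemma cx_deriv (e x0 : ℂ) (s : ℝ) : HasDerivAt (cx e x0)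
    ((x0 - e) * (Complex.exp (2 * π * Complex.I * (ph s : ℂ)) *
      (2 * π * Complex.I * ((deriv ph s : ℝ) : ℂ)))) s := by
  have h1 : HasDerivAt ph (deriv ph s) s :=
    (ph_contDiff.differentiable (by norm_num) s).hasDerivAt
  have h2 : HasDerivAt (fun s => ((ph s : ℝ) : ℂ)) ((deriv ph s : ℝ) : ℂ) s := h1.ofReal_comp
  unfold cx
  exact (((h2.const_mul (2 * π * Complex.I)).cexp).const_mul (x0 - e)).const_add e

lemma norm_deriv_cx (e x0 : ℂ) (s : ℝ) :
    ‖deriv (cx e x0) s‖ = ‖x0 - e‖ * (2 * π * |deriv ph s|) := by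
  rw [(cx_deriv e x0 s).deriv, norm_mul, norm_mul, norm_exp_ph, one_mul, norm_mul, norm_mul,
    norm_mul, Complex.norm_I, mul_one, Complex.norm_real, Complex.norm_real, Complex.norm_ofNat,
    Real.norm_eq_abs, Real.norm_eq_abs, abs_of_pos Real.pi_pos]

lemma cy_contDiff (E : ℂ[X]) (e x0 y0 : ℂ)
    (h : ∀ s, E.eval (cx e x0 s) / E.eval x0 ∈ Complex.slitPlane) :
    ContDiff ℝ 2 (cy E e x0 y0) := by
  have h1 : ContDiff ℝ 2 (fun s => E.eval (cx e x0 s) / E.eval x0) := by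
    have h2 : ContDiff ℝ 2 (fun z : ℂ => E.eval z) := (E.differentiable (𝕜 := ℂ)).contDiff.restrict_scalars ℝ
    exact (h2.comp (cx_contDiff e x0)).div_const _
  have h3 : ContDiff ℝ 2 (fun s => Complex.log (E.eval (cx e x0 s) / E.eval x0)) := by
    rw [contDiff_iff_contDiffAt]
    intro s
    have h4 : ContDiffAt ℝ 2 Complex.log (E.eval (cx e x0 s) / E.eval x0) :=
      (Complex.contDiffAt_log (h s)).restrict_scalars ℝ
    exact h4.comp s h1.contDiffAt
  unfold cy
  exact (contDiff_const.mul (contDiff_const.mul ph_ofReal).cexp).mul (h3.div_const 2).cexp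

end SwitchAux

open SwitchAux

theorem switch : S_SWITCH := by
  intro D q hD e he
  obtain ⟨E, hE⟩ : X - C e ∣ D := dvd_iff_isRoot.2 he
  have hEe : E.eval e ≠ 0 := by
    intro h
    obtain ⟨F, hF⟩ : X - C e ∣ E := dvd_iff_isRoot.2 h
    have h1 : IsUnit (X - C e) := hD (X - C e) ⟨F, by rw [hE, hF]; ring⟩
    exact (Polynomial.prime_X_sub_C e).not_isUnit h1
  have hDe : ∀ x, D.eval x = (x - e) * E.eval x := by
    intro x
    rw [hE, eval_mul, eval_sub, eval_X, eval_C]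
  have hb : 0 < ‖E.eval e‖ := norm_pos_iff.2 hEe
  have hc1 : ContinuousAt (fun x => E.eval x) e := E.continuous.continuousAt
  have hc2 : ContinuousAt (fun x => q.eval x) e := q.continuous.continuousAt
  rw [Metric.continuousAt_iff] at hc1 hc2
  obtain ⟨δ1, hδ1, h1⟩ := hc1 (‖E.eval e‖ / 5) (by positivity)
  obtain ⟨δ2, hδ2, h2⟩ := hc2 1 one_pos
  obtain ⟨Φ, hΦ0, hΦ⟩ := ph_deriv_bound
  have hE1 : ∀ x, ‖x - e‖ < min δ1 δ2 → ‖E.eval x - E.eval e‖ < ‖E.eval e‖ / 5 := by
    intro x hx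
    have := h1 (x := x) (by rw [dist_eq_norm]; exact hx.trans_le (min_le_left _ _))
    rwa [dist_eq_norm] at this
  have hE2 : ∀ x, ‖x - e‖ < min δ1 δ2 → 4 / 5 * ‖E.eval e‖ ≤ ‖E.eval x‖ := by
    intro x hx
    have h3 := hE1 x hx
    have h4 : ‖E.eval e‖ ≤ ‖E.eval x‖ + ‖E.eval x - E.eval e‖ := by
      have := norm_sub_le (E.eval x) (E.eval x - E.eval e)
      rwa [sub_sub_cancel] at this
    linarith
  have hq : ∀ x, ‖x - e‖ < min δ1 δ2 → ‖q.eval x‖ ≤ ‖q.eval e‖ + 1 := by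
    intro x hx
    have h3 := h2 (x := x) (by rw [dist_eq_norm]; exact hx.trans_le (min_le_right _ _))
    rw [dist_eq_norm] at h3
    have h4 : ‖q.eval x‖ ≤ ‖q.eval e‖ + ‖q.eval x - q.eval e‖ := by
      have := norm_add_le (q.eval e) (q.eval x - q.eval e)
      rwa [add_sub_cancel] at this
    linarith
  have hslit : ∀ x x', ‖x - e‖ < min δ1 δ2 → ‖x' - e‖ < min δ1 δ2 →
      E.eval x / E.eval x' ∈ Complex.slitPlane := by
    intro x x' hx hx'
    have h3 := hE1 x hx
    have h4 := hE1 x' hx'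
    have h5 := hE2 x' hx'
    have h50 : 0 < ‖E.eval x'‖ := by linarith
    have h6 : ‖E.eval x / E.eval x' - 1‖ < 1 := by
      have h7 : E.eval x / E.eval x' - 1 = (E.eval x - E.eval x') / E.eval x' := by
        have : E.eval x' ≠ 0 := norm_pos_iff.1 h50
        field_simp
      rw [h7, norm_div, div_lt_one h50]
      have h8 : ‖E.eval x - E.eval x'‖ ≤ ‖E.eval x - E.eval e‖ + ‖E.eval x' - E.eval e‖ := by
        have := norm_sub_le (E.eval x - E.eval e) (E.eval x' - E.eval e)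
        rwa [sub_sub_sub_cancel_right] at this
      linarith
    rw [Complex.mem_slitPlane_iff]
    left
    have h9 := Complex.abs_re_le_norm (E.eval x / E.eval x' - 1)
    rw [Complex.sub_re, Complex.one_re] at h9
    have h10 := neg_abs_le ((E.eval x / E.eval x').re - 1)
    linarith
  set b : ℝ := 4 / 5 * ‖E.eval e‖ with hbdef
  have hb0 : 0 < b := by positivity
  refine ⟨min δ1 δ2, (‖q.eval e‖ + 1) * (2 * π * Φ) / √b, lt_min hδ1 hδ2, ?_⟩
  rintro ⟨x0, y0⟩ ⟨hp, hy0⟩ hx0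
  simp only at hp hy0 hx0
  have hr : 0 < ‖x0 - e‖ := by
    rw [norm_pos_iff]
    intro h
    rw [hDe, h, zero_mul] at hp
    exact hy0 (pow_eq_zero_iff (two_ne_zero) |>.1 hp)
  have hEx0 : E.eval x0 ≠ 0 := norm_pos_iff.1 (hb0.trans_le (hE2 x0 hx0))
  have hcx : ∀ s, ‖cx e x0 s - e‖ < min δ1 δ2 := fun s => by
    rw [norm_cx]
    exact hx0
  have hsl : ∀ s, E.eval (cx e x0 s) / E.eval x0 ∈ Complex.slitPlane := fun s =>
    hslit _ _ (hcx s) hx0
  have heq : ∀ s, cy E e x0 y0 s ^ 2 = D.eval (cx e x0 s) := by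
    intro s
    have h3 : Complex.exp (Complex.log (E.eval (cx e x0 s) / E.eval x0) / 2) ^ 2 =
        E.eval (cx e x0 s) / E.eval x0 := by
      rw [← Complex.exp_nat_mul]
      have : ((2 : ℕ) : ℂ) * (Complex.log (E.eval (cx e x0 s) / E.eval x0) / 2) =
          Complex.log (E.eval (cx e x0 s) / E.eval x0) := by
        push_cast
        ring
      rw [this, Complex.exp_log (Complex.slitPlane_ne_zero (hsl s))]
    have h4 : Complex.exp (π * Complex.I * (ph s : ℂ)) ^ 2 =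
        Complex.exp (2 * π * Complex.I * (ph s : ℂ)) := by
      rw [← Complex.exp_nat_mul]
      congr 1
      push_cast
      ring
    have h5 : cx e x0 s - e = (x0 - e) * Complex.exp (2 * π * Complex.I * (ph s : ℂ)) := by
      unfold cx
      ring
    rw [hDe, h5]
    unfold cy
    rw [mul_pow, mul_pow, h3, h4, hp, hDe]
    field_simp
  have hne : ∀ s, cy E e x0 y0 s ≠ 0 := by
    intro s
    unfold cy
    exact mul_ne_zero (mul_ne_zero hy0 (Complex.exp_ne_zero _)) (Complex.exp_ne_zero _)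
  let c : Pth D (x0, y0) ((x0, y0).1, -(x0, y0).2) :=
    { x := cx e x0
      y := cy E e x0 y0
      contDiff_x := cx_contDiff e x0
      contDiff_y := cy_contDiff E e x0 y0 hsl
      eq := heq
      ne := hne
      left := ⟨1 / 3, by norm_num, fun s hs => by
        have hx : cx e x0 s = x0 := by
          unfold cx
          rw [ph_zero hs]
          simp
        refine ⟨hx, ?_⟩
        unfold cy
        rw [hx, ph_zero hs, div_self hEx0]
        simp⟩
      right := ⟨1 / 3, by norm_num, fun s hs => by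
        have hs' : 2 / 3 ≤ s := by linarith
        have hx : cx e x0 s = x0 := by
          unfold cx
          rw [ph_one hs', Complex.ofReal_one, mul_one, Complex.exp_two_pi_mul_I]
          ring
        refine ⟨hx, ?_⟩
        unfold cy
        rw [hx, ph_one hs', div_self hEx0, Complex.ofReal_one, mul_one, Complex.exp_pi_mul_I]
        simp⟩ }
  refine ⟨c, ?_⟩
  have hbound : ∀ s ∈ Set.uIoc (0 : ℝ) 1, ‖q.eval (c.x s) * deriv c.x s / c.y s‖ ≤
      (‖q.eval e‖ + 1) * (2 * π * Φ) / √b * √‖x0 - e‖ := by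
    intro s hs
    rw [uIoc_of_le zero_le_one] at hs
    have hs' : s ∈ Icc (0 : ℝ) 1 := ⟨hs.1.le, hs.2⟩
    change ‖q.eval (cx e x0 s) * deriv (cx e x0) s / cy E e x0 y0 s‖ ≤ _
    have h3 : √(b * ‖x0 - e‖) ≤ ‖cy E e x0 y0 s‖ := by
      rw [← Real.sqrt_sq (norm_nonneg (cy E e x0 y0 s))]
      apply Real.sqrt_le_sqrt
      rw [← norm_pow, heq, hDe, norm_mul, norm_cx, mul_comm b]
      exact mul_le_mul_of_nonneg_left (hE2 _ (hcx s)) (norm_nonneg _)
    have h4 : 0 < √(b * ‖x0 - e‖) := Real.sqrt_pos.2 (mul_pos hb0 hr)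
    have h5 : √(b * ‖x0 - e‖) = √b * √‖x0 - e‖ := Real.sqrt_mul hb0.le _
    have h6 : √‖x0 - e‖ * √‖x0 - e‖ = ‖x0 - e‖ := Real.mul_self_sqrt hr.le
    have h7 : 0 < √b := Real.sqrt_pos.2 hb0
    have h8 : 0 < √‖x0 - e‖ := Real.sqrt_pos.2 hr
    rw [norm_div, norm_mul, norm_deriv_cx]
    calc ‖q.eval (cx e x0 s)‖ * (‖x0 - e‖ * (2 * π * |deriv ph s|)) / ‖cy E e x0 y0 s‖
        ≤ (‖q.eval e‖ + 1) * (‖x0 - e‖ * (2 * π * Φ)) / √(b * ‖x0 - e‖) := by
          have := hq _ (hcx s)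
          have := hΦ s hs'
          have := Real.pi_pos
          gcongr
      _ = (‖q.eval e‖ + 1) * (2 * π * Φ) / √b * √‖x0 - e‖ := by
          rw [h5]
          nth_rewrite 1 [← h6]
          field_simp
  have h := intervalIntegral.norm_integral_le_of_norm_le_const hbound
  rw [sub_zero, abs_one, mul_one] at h
  exact h

end Pool.Agent.N76.LP
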