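import Pool.Agent.N76.LP.Stm

set_option autoImplicit false

/-!
# Project LP, part SYM: the inverse path and the path on the other sheet (helper543)
-/

namespace Pool.Agent.N76.LP

open Polynomial MeasureTheory Set Filter Topology Module

namespace SymAux

/-- the inverse path -/
noncomputable def inv {D : ℂ[X]} {p p' : ℂ × ℂ} (c : Pth D p p') : Pth D p' p where
  x := fun s => c.x (1 - s)
  y := fun s => c.y (1 - s)
  contDiff_x := c.contDiff_x.comp (contDiff_const.sub contDiff_id)
  contDiff_y := c.contDiff_y.comp (contDiff_const.sub contDiff_id)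
  eq := fun s => c.eq _
  ne := fun s => c.ne _
  left := by
    obtain ⟨ε, h, h2⟩ := c.right
    exact ⟨ε, h, fun s hs => h2 (1 - s) (by linarith)⟩
  right := by
    obtain ⟨ε, h, h2⟩ := c.left
    exact ⟨ε, h, fun s hs => h2 (1 - s) (by linarith)⟩

theorem inv_int {D : ℂ[X]} {p p' : ℂ × ℂ} (c : Pth D p p') (q : ℂ[X]) :
    (inv c).int q = -c.int q := by
  have h1 : ∀ s : ℝ, deriv (fun s => c.x (1 - s)) s = -deriv c.x (1 - s) := fun s =>
    deriv_comp_const_sub c.x 1 s
  have h2 := intervalIntegral.integral_comp_sub_left (a := 0) (b := 1)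
    (fun u : ℝ => q.eval (c.x u) * deriv c.x u / c.y u) (1 : ℝ)
  rw [sub_self, sub_zero] at h2
  have h3 : (inv c).int q = ∫ s in (0 : ℝ)..1,
      -(q.eval (c.x (1 - s)) * deriv c.x (1 - s) / c.y (1 - s)) := by
    refine intervalIntegral.integral_congr fun s _ => ?_
    show q.eval (c.x (1 - s)) * deriv (fun s => c.x (1 - s)) s / c.y (1 - s) = _
    rw [h1]
    ring
  rw [h3, intervalIntegral.integral_neg, h2]
  rfl

/-- the path on the other sheet -/
noncomputable def flip {D : ℂ[X]} {p p' : ℂ × ℂ} (c : Pth D p p') :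
    Pth D (p.1, -p.2) (p'.1, -p'.2) where
  x := c.x
  y := fun s => -c.y s
  contDiff_x := c.contDiff_x
  contDiff_y := c.contDiff_y.neg
  eq := fun s => by rw [neg_sq]; exact c.eq s
  ne := fun s => neg_ne_zero.mpr (c.ne s)
  left := by
    obtain ⟨ε, h, h2⟩ := c.left
    exact ⟨ε, h, fun s hs => ⟨(h2 s hs).1, by rw [(h2 s hs).2]⟩⟩
  right := by
    obtain ⟨ε, h, h2⟩ := c.right
    exact ⟨ε, h, fun s hs => ⟨(h2 s hs).1, by rw [(h2 s hs).2]⟩⟩

theorem flip_int {D : ℂ[X]} {p p' : ℂ × ℂ} (c : Pth D p p') (q : ℂ[X]) :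
    (flip c).int q = -c.int q := by
  have h3 : (flip c).int q = ∫ s in (0 : ℝ)..1,
      -(q.eval (c.x s) * deriv c.x s / c.y s) := by
    refine intervalIntegral.integral_congr fun s _ => ?_
    show q.eval (c.x s) * deriv c.x s / -c.y s = _
    rw [div_neg]
  rw [h3, intervalIntegral.integral_neg]
  rfl

end SymAux

/-- SYM -/
theorem sym : S_SYM :=
  ⟨fun c => ⟨SymAux.inv c, SymAux.inv_int c⟩, fun c => ⟨SymAux.flip c, SymAux.flip_int c⟩⟩

end Pool.Agent.N76.LP
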