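import Pool.Agent.N76.LP.Stm

/-!
# Project LP, part TRIG: approximation of a loop in the plane by an analytic loop (helper11)
-/

set_option autoImplicit false

namespace Pool.Agent.N76.LP

open Polynomial MeasureTheory Set Filter Topology Module
open scoped Real

namespace TrigAux

/-- antiderivatives of trigonometric polynomials -/
def Good (v : C(AddCircle (1 : ℝ), ℂ)) : Prop :=
  ∃ (V : ℝ → ℂ) (μ : ℂ), AnalyticOnNhd ℝ V univ ∧ (∀ s, V (s + 1) = V s) ∧
    ∀ s : ℝ, HasDerivAt V (v (s : AddCircle (1 : ℝ)) - μ) s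

lemma good_fourier (n : ℤ) : Good (fourier n) := by
  by_cases hn : n = 0
  · subst hn
    refine ⟨fun _ => 0, 1, analyticOnNhd_const, fun _ => rfl, fun s => ?_⟩
    rw [fourier_zero, sub_self]
    exact hasDerivAt_const s 0
  · set c : ℂ := 2 * π * Complex.I * n with hc
    have hc0 : c ≠ 0 := by
      rw [hc]
      have h1 : (n : ℂ) ≠ 0 := by exact_mod_cast hn
      have h2 : (π : ℂ) ≠ 0 := by exact_mod_cast Real.pi_ne_zero
      exact mul_ne_zero (mul_ne_zero (mul_ne_zero two_ne_zero h2) Complex.I_ne_zero) h1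
    refine ⟨fun s => Complex.exp (c * s) / c, 0, ?_, ?_, ?_⟩
    · intro s _
      have h1 : AnalyticAt ℝ (fun s : ℝ => c * (s : ℂ)) s :=
        analyticAt_const.mul (Complex.ofRealCLM.analyticAt s)
      have h2 : AnalyticAt ℝ Complex.exp (c * (s : ℂ)) := analyticAt_cexp.restrictScalars
      have h3 : AnalyticAt ℝ (fun s : ℝ => Complex.exp (c * (s : ℂ))) s :=
        AnalyticAt.comp (g := Complex.exp) (f := fun s : ℝ => c * (s : ℂ)) h2 h1
      exact h3.div analyticAt_const hc0
    · intro s
      have h1 : c * ((s + 1 : ℝ) : ℂ) = c * s + n * (2 * π * Complex.I) := by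
        rw [hc]
        push_cast
        ring
      beta_reduce
      rw [h1, Complex.exp_add, Complex.exp_int_mul_two_pi_mul_I, mul_one]
    · intro s
      rw [fourier_coe_apply, sub_zero]
      have h1 : HasDerivAt (fun s : ℝ => c * (s : ℂ)) c s := by
        have := (Complex.ofRealCLM.hasDerivAt (x := s)).const_mul c
        simpa using this
      have h2 := (h1.cexp).div_const c
      refine h2.congr_deriv ?_
      rw [mul_div_assoc, div_self hc0, mul_one, hc]
      congr 1
      push_cast
      ring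

lemma good_span (v : C(AddCircle (1 : ℝ), ℂ))
    (hv : v ∈ Submodule.span ℂ (range (@fourier (1 : ℝ)))) : Good v := by
  induction hv using Submodule.span_induction with
  | mem x hx =>
    obtain ⟨n, rfl⟩ := hx
    exact good_fourier n
  | zero =>
    refine ⟨fun _ => 0, 0, analyticOnNhd_const, fun _ => rfl, fun s => ?_⟩
    rw [sub_zero]
    exact hasDerivAt_const s 0
  | add x y _ _ hx hy =>
    obtain ⟨V, μ, h1, h2, h3⟩ := hx
    obtain ⟨W, ν, h4, h5, h6⟩ := hy
    refine ⟨fun s => V s + W s, μ + ν, h1.add h4, fun s => ?_, fun s => ?_⟩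
    · beta_reduce
      rw [h2, h5]
    · refine ((h3 s).add (h6 s)).congr_deriv ?_
      rw [ContinuousMap.add_apply]
      ring
  | smul a x _ hx =>
    obtain ⟨V, μ, h1, h2, h3⟩ := hx
    refine ⟨fun s => a * V s, a * μ, analyticOnNhd_const.mul h1, fun s => ?_, fun s => ?_⟩
    · beta_reduce
      rw [h2]
    · refine ((h3 s).const_mul a).congr_deriv ?_
      rw [ContinuousMap.smul_apply, smul_eq_mul]
      ring

end TrigAux

open TrigAux in
theorem trig : S_TRIG := by
  intro x hx hper η hη
  have : Fact ((0 : ℝ) < 1) := ⟨zero_lt_one⟩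
  have hd : ∀ s, HasDerivAt x (deriv x s) s := fun s =>
    ((hx.differentiable (by norm_num)) s).hasDerivAt
  have hdc : Continuous (deriv x) := hx.continuous_deriv (by norm_num)
  have hdp : Function.Periodic (deriv x) 1 := by
    intro s
    have h1 : (fun s => x (s + 1)) = x := funext hper
    rw [← deriv_comp_add_const, h1]
  let f : C(AddCircle (1 : ℝ), ℂ) := ⟨hdp.lift, hdc.quotient_liftOn' _⟩
  have hf : ∀ s : ℝ, f (s : AddCircle (1 : ℝ)) = deriv x s := fun s => rfl
  have hmem : f ∈ (Submodule.span ℂ (range (@fourier (1 : ℝ)))).topologicalClosure := by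
    rw [span_fourier_closure_eq_top]
    exact Submodule.mem_top
  change f ∈ closure ((Submodule.span ℂ (range (@fourier (1 : ℝ))) :
    Submodule ℂ C(AddCircle (1 : ℝ), ℂ)) : Set C(AddCircle (1 : ℝ), ℂ)) at hmem
  rw [Metric.mem_closure_iff] at hmem
  obtain ⟨v, hv, hfv⟩ := hmem (η / 4) (by linarith)
  obtain ⟨V, μ, hVa, hVp, hVd⟩ := good_span v hv
  have hclose : ∀ s : ℝ, ‖v (s : AddCircle (1 : ℝ)) - deriv x s‖ ≤ η / 4 := by
    intro s
    rw [← hf s, ← dist_eq_norm, dist_comm]
    exact (ContinuousMap.dist_apply_le_dist _).trans hfv.le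
  -- the mean
  have hμ : ‖μ‖ ≤ η / 4 := by
    have h1 : ∀ s : ℝ, HasDerivAt (fun s : ℝ => V s - x s + μ * (s : ℂ))
        (v (s : AddCircle (1 : ℝ)) - deriv x s) s := by
      intro s
      have h2 : HasDerivAt (fun s : ℝ => μ * (s : ℂ)) μ s := by
        have := (Complex.ofRealCLM.hasDerivAt (x := s)).const_mul μ
        simpa using this
      refine (((hVd s).sub (hd s)).add h2).congr_deriv ?_
      ring
    have h3 := norm_image_sub_le_of_norm_deriv_le_segment_01'
      (f := fun s : ℝ => V s - x s + μ * (s : ℂ))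
      (f' := fun s : ℝ => v (s : AddCircle (1 : ℝ)) - deriv x s) (C := η / 4)
      (fun s _ => (h1 s).hasDerivWithinAt) (fun s _ => hclose s)
    have e1 : V 1 = V 0 := by
      have := hVp 0
      rwa [zero_add] at this
    have e2 : x 1 = x 0 := by
      have := hper 0
      rwa [zero_add] at this
    have h4 : (V 1 - x 1 + μ * ((1 : ℝ) : ℂ)) - (V 0 - x 0 + μ * ((0 : ℝ) : ℂ)) = μ := by
      rw [e1, e2]
      push_cast
      ring
    rw [h4] at h3
    exact h3
  refine ⟨fun s => x 0 + (V s - V 0), ?_, ?_, ?_, ?_, ?_⟩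
  · have h1 : AnalyticOnNhd ℝ (fun s => x 0 + (V s - V 0)) univ :=
      analyticOnNhd_const.add (hVa.sub analyticOnNhd_const)
    rw [← contDiffOn_univ]
    exact h1.contDiffOn (uniqueDiffOn_univ)
  · intro s
    beta_reduce
    rw [hVp]
  · exact analyticOnNhd_const.add (hVa.sub analyticOnNhd_const)
  · -- closeness
    have hw : ∀ s : ℝ, HasDerivAt (fun s : ℝ => x 0 + (V s - V 0) - x s)
        (v (s : AddCircle (1 : ℝ)) - μ - deriv x s) s := by
      intro s
      have h1 := (((hVd s).sub_const (V 0)).const_add (x 0)).sub (hd s)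
      exact h1
    have hb : ∀ s : ℝ, ‖v (s : AddCircle (1 : ℝ)) - μ - deriv x s‖ ≤ η / 2 := by
      intro s
      have h1 : v (s : AddCircle (1 : ℝ)) - μ - deriv x s =
          (v (s : AddCircle (1 : ℝ)) - deriv x s) - μ := by ring
      rw [h1]
      have := norm_sub_le (v (s : AddCircle (1 : ℝ)) - deriv x s) μ
      have := hclose s
      linarith
    have hwp : Function.Periodic (fun s => x 0 + (V s - V 0) - x s) 1 := by
      intro s
      beta_reduce
      rw [hVp, hper]
    intro s
    have h01 : ∀ t ∈ Icc (0 : ℝ) 1, ‖x 0 + (V t - V 0) - x t‖ ≤ η := by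
      intro t ht
      have h3 := norm_image_sub_le_of_norm_deriv_le_segment'
        (f := fun s : ℝ => x 0 + (V s - V 0) - x s)
        (f' := fun s : ℝ => v (s : AddCircle (1 : ℝ)) - μ - deriv x s) (a := 0) (b := 1)
        (C := η / 2) (fun s _ => (hw s).hasDerivWithinAt) (fun s _ => hb s) t ht
      have h4 : x 0 + (V 0 - V 0) - x 0 = 0 := by ring
      rw [h4, sub_zero, sub_zero] at h3
      have h5 : η / 2 * t ≤ η / 2 * 1 := mul_le_mul_of_nonneg_left ht.2 (by linarith)
      linarith
    have h1 := h01 (Int.fract s) ⟨Int.fract_nonneg s, (Int.fract_lt_one s).le⟩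
    have h2 : (fun s => x 0 + (V s - V 0) - x s) (Int.fract s) =
        (fun s => x 0 + (V s - V 0) - x s) s := by
      have h3 := hwp.sub_int_mul_eq (x := s) ⌊s⌋
      rw [mul_one] at h3
      exact h3
    beta_reduce at h2
    rw [← h2]
    exact h1
  · intro s
    have h1 : HasDerivAt (fun s : ℝ => x 0 + (V s - V 0)) (v (s : AddCircle (1 : ℝ)) - μ) s :=
      ((hVd s).sub_const (V 0)).const_add (x 0)
    rw [h1.deriv]
    have h2 : v (s : AddCircle (1 : ℝ)) - μ - deriv x s =
        (v (s : AddCircle (1 : ℝ)) - deriv x s) - μ := by ring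
    rw [h2]
    have := norm_sub_le (v (s : AddCircle (1 : ℝ)) - deriv x s) μ
    have := hclose s
    linarith

end Pool.Agent.N76.LP
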