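import Pool.Agent.N76.LP.Trans
import Pool.Agent.N76.LP.Sym
import Pool.Agent.N76.LP.Close
import Pool.Agent.N76.LP.Local
import Pool.Agent.N76.LP.Switch
import Pool.Agent.N76.LP.Conn
import Pool.Agent.N76.LP.Pot
import Pool.Agent.N76.LP.Infty
import Pool.Agent.N76.LP.Max
import Pool.Agent.N76.LP.Span
import Pool.Agent.N76.LP.Trig
import Pool.Agent.N76.LP.Gen
import Pool.Agent.N76.LP.Lift
import Pool.Agent.N76.LP.Exi

set_option autoImplicit false

/-!
# Project LP: the existence of `2 g` generic loops with independent periods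
-/

namespace Pool.Agent.N76.LP

open Polynomial MeasureTheory Set
open Pool.Agent.Y94.R (Lp)

theorem loops : S_EXI :=
  exi (pot trans sym close (conn trans sym local_ switch)) (max_ local_ switch (infty local_)) span_ trig gen lift_

/-- on a smooth hyperelliptic curve there are `2 g` loops with linearly independent period vectors that avoid the zeros
of `r ≠ 0`, such that `P` takes only finitely many real values on them -/
theorem exists_loops {D P r : ℂ[X]} {g : ℕ} (hD : Squarefree D) (hdeg : D.natDegree = 2 * g + 2) (hP : 0 < P.natDegree)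
    (hr : r ≠ 0) : ∃ γ : Fin (2 * g) → Lp D,
    (LinearIndependent ℝ fun (l : Fin (2 * g)) (j : Fin g) =>
      ∫ t in (0 : ℝ)..1, (γ l).x t ^ (j : ℕ) * deriv (γ l).x t / (γ l).y t) ∧
    (∀ l t, r.eval ((γ l).x t) ≠ 0) ∧
    {τ : ℝ | |τ| < 1 ∧ ∃ l t, P.eval ((γ l).x t) = (τ : ℂ)}.Finite := by
  obtain ⟨γ, h1, h2, h3⟩ := loops D P g {z | r.eval z = 0} hD hdeg hP
    ((r.roots.toFinset.finite_toSet).subset fun z hz => by
      simpa [hr] using hz)
  refine ⟨γ, ?_, fun l t => h2 l t, h3.subset fun τ hτ => hτ.2⟩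
  simpa [per] using h1

end Pool.Agent.N76.LP
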