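import Pool.Agent.Y94.R.Lp

set_option autoImplicit false

/-!
# Project LP: loops with independent periods on hyperelliptic curves. Definitions and statements of the parts.
-/

namespace Pool.Agent.N76.LP

open Polynomial MeasureTheory Set Filter Topology Module
open Pool.Agent.Y94.R (Lp)
open scoped Real

/-- the points of the curve `y² = D(x)` with `y ≠ 0` -/
def Pts (D : ℂ[X]) : Set (ℂ × ℂ) := {p | p.2 ^ 2 = D.eval p.1 ∧ p.2 ≠ 0}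

/-- a path of class `C²` in the curve, constant near its ends -/
structure Pth (D : ℂ[X]) (p p' : ℂ × ℂ) where
  x : ℝ → ℂ
  y : ℝ → ℂ
  contDiff_x : ContDiff ℝ 2 x
  contDiff_y : ContDiff ℝ 2 y
  eq : ∀ s, y s ^ 2 = D.eval (x s)
  ne : ∀ s, y s ≠ 0
  left : ∃ ε : ℝ, 0 < ε ∧ ∀ s, s ≤ ε → x s = p.1 ∧ y s = p.2
  right : ∃ ε : ℝ, 0 < ε ∧ ∀ s, 1 - ε ≤ s → x s = p'.1 ∧ y s = p'.2

/-- the integral of `q(x) dx / y` along a path -/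
noncomputable def Pth.int {D : ℂ[X]} {p p' : ℂ × ℂ} (c : Pth D p p') (q : ℂ[X]) : ℂ :=
  ∫ s in (0 : ℝ)..1, q.eval (c.x s) * deriv c.x s / c.y s

/-- the period of `q(x) dx / y` -/
noncomputable def per {D : ℂ[X]} (γ : Lp D) (q : ℂ[X]) : ℂ :=
  ∫ s in (0 : ℝ)..1, q.eval (γ.x s) * deriv γ.x s / γ.y s

/-- TRANS: composition of paths -/
def S_TRANS : Prop := ∀ {D : ℂ[X]} {p p' p'' : ℂ × ℂ} (c : Pth D p p') (c' : Pth D p' p''),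
  ∃ c'' : Pth D p p'', ∀ q, c''.int q = c.int q + c'.int q

/-- SYM: the inverse path and the path on the other sheet -/
def S_SYM : Prop := (∀ {D : ℂ[X]} {p p' : ℂ × ℂ} (c : Pth D p p'), ∃ c' : Pth D p' p, ∀ q, c'.int q = -c.int q) ∧
  ∀ {D : ℂ[X]} {p p' : ℂ × ℂ} (c : Pth D p p'),
    ∃ c' : Pth D (p.1, -p.2) (p'.1, -p'.2), ∀ q, c'.int q = -c.int q

/-- CLOSE: a closed path is a loop -/
def S_CLOSE : Prop := ∀ {D : ℂ[X]} {p : ℂ × ℂ} (c : Pth D p p), ∃ γ : Lp D, ∀ q, per γ q = c.int q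

/-- LOCAL: small paths and the local primitive of `q(x) dx / y` -/
def S_LOCAL : Prop := ∀ (D q : ℂ[X]) (p : ℂ × ℂ), p ∈ Pts D → ∃ (δ : ℝ) (Y G : ℂ → ℂ), 0 < δ ∧ Y p.1 = p.2 ∧
  ContinuousOn Y (Metric.ball p.1 δ) ∧
  ∀ x ∈ Metric.ball p.1 δ, (x, Y x) ∈ Pts D ∧ HasDerivAt G (q.eval x / Y x) x ∧
    ∃ c : Pth D p (x, Y x), c.int q = G x - G p.1

/-- SWITCH: near a branch point the two sheets are joined by short paths -/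
def S_SWITCH : Prop := ∀ (D q : ℂ[X]), Squarefree D → ∀ e : ℂ, D.eval e = 0 → ∃ (δ B : ℝ), 0 < δ ∧
  ∀ p ∈ Pts D, ‖p.1 - e‖ < δ → ∃ c : Pth D p (p.1, -p.2), ‖c.int q‖ ≤ B * Real.sqrt ‖p.1 - e‖

/-- CONN: the curve is connected -/
def S_CONN : Prop := ∀ (D : ℂ[X]), Squarefree D → 0 < D.natDegree → ∀ p ∈ Pts D, ∀ p' ∈ Pts D, Nonempty (Pth D p p')

/-- `h` is a potential of the real part of `q(x) dx / y` -/
def Pot (D q : ℂ[X]) (h : ℂ × ℂ → ℝ) : Prop := (∀ p ∈ Pts D, h (p.1, -p.2) = -h p) ∧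
  ∀ p ∈ Pts D, ∀ p' ∈ Pts D, ∀ c : Pth D p p', h p' - h p = (c.int q).re

/-- POT: if all real periods vanish then there is a potential -/
def S_POT : Prop := ∀ (D q : ℂ[X]), Squarefree D → 0 < D.natDegree → (∀ γ : Lp D, (per γ q).re = 0) →
  ∃ h : ℂ × ℂ → ℝ, Pot D q h

/-- INFTY: the potential near infinity -/
def S_INFTY : Prop := ∀ (D q : ℂ[X]) (g : ℕ) (h : ℂ × ℂ → ℝ), D.natDegree = 2 * g + 2 → q.natDegree < g → Pot D q h →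
  ∃ (ρ κ : ℝ) (Y K k : ℂ → ℂ), 0 < ρ ∧ K 0 = 0 ∧ (∀ w ∈ Metric.ball (0 : ℂ) ρ, HasDerivAt K (k w) w) ∧
    (∀ w ∈ Metric.ball (0 : ℂ) ρ, k w = 0 → w ≠ 0 → q.eval w⁻¹ = 0) ∧
    ∀ w ∈ Metric.ball (0 : ℂ) ρ, w ≠ 0 → (w⁻¹, Y w) ∈ Pts D ∧ h (w⁻¹, Y w) = κ + (K w).re

/-- MAX: the maximum principle -/
def S_MAX : Prop := ∀ (D q : ℂ[X]) (g : ℕ) (h : ℂ × ℂ → ℝ), Squarefree D → D.natDegree = 2 * g + 2 → q.natDegree < g →
  Pot D q h → q = 0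

/-- SPAN: there are `2 g` loops with linearly independent period vectors -/
def S_SPAN : Prop := ∀ (D : ℂ[X]) (g : ℕ), (∀ q : ℂ[X], q.natDegree < g → (∀ γ : Lp D, (per γ q).re = 0) → q = 0) →
  ∃ γ : Fin (2 * g) → Lp D, LinearIndependent ℝ fun (l : Fin (2 * g)) (j : Fin g) => per (γ l) (X ^ (j : ℕ))

/-- TRIG: approximation of a loop in the plane by an analytic loop -/
def S_TRIG : Prop := ∀ (x : ℝ → ℂ), ContDiff ℝ 2 x → (∀ s, x (s + 1) = x s) → ∀ η : ℝ, 0 < η →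
  ∃ x₁ : ℝ → ℂ, ContDiff ℝ 2 x₁ ∧ (∀ s, x₁ (s + 1) = x₁ s) ∧ AnalyticOnNhd ℝ x₁ univ ∧
    (∀ s, ‖x₁ s - x s‖ ≤ η) ∧ ∀ s, ‖deriv x₁ s - deriv x s‖ ≤ η

/-- GEN: generic translations of an analytic loop in the plane -/
def S_GEN : Prop := ∀ (x : ℝ → ℂ), ContDiff ℝ 2 x → (∀ s, x (s + 1) = x s) → AnalyticOnNhd ℝ x univ →
  ∀ (Z : Set ℂ), Z.Finite → ∀ P : ℂ[X], 0 < P.natDegree → ∀ η : ℝ, 0 < η → ∃ δ : ℂ, ‖δ‖ < η ∧
    (∀ s, x s + δ ∉ Z) ∧ {τ : ℝ | ∃ s, P.eval (x s + δ) = (τ : ℂ)}.Finite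

/-- LIFT: a plane loop near the projection of a loop of the curve lifts to the curve, with almost the same periods -/
def S_LIFT : Prop := ∀ {D : ℂ[X]} (γ : Lp D) (g : ℕ) (ε : ℝ), 0 < ε → ∃ η : ℝ, 0 < η ∧ ∀ x : ℝ → ℂ, ContDiff ℝ 2 x →
  (∀ s, x (s + 1) = x s) → (∀ s, ‖x s - γ.x s‖ ≤ η) → (∀ s, ‖deriv x s - deriv γ.x s‖ ≤ η) →
    ∃ γ' : Lp D, γ'.x = x ∧ ∀ j < g, ‖per γ' (X ^ j) - per γ (X ^ j)‖ < ε

/-- EXI: `2 g` generic loops with linearly independent period vectors -/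
def S_EXI : Prop := ∀ (D P : ℂ[X]) (g : ℕ) (Z : Set ℂ), Squarefree D → D.natDegree = 2 * g + 2 → 0 < P.natDegree →
  Z.Finite → ∃ γ : Fin (2 * g) → Lp D,
    (LinearIndependent ℝ fun (l : Fin (2 * g)) (j : Fin g) => per (γ l) (X ^ (j : ℕ))) ∧
    (∀ l s, (γ l).x s ∉ Z) ∧ {τ : ℝ | ∃ l s, P.eval ((γ l).x s) = (τ : ℂ)}.Finite

end Pool.Agent.N76.LP
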