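import Pool.Agent.N76.LP.Stm

set_option autoImplicit false

/-!
# Project LP, part TRANS (helper531): composition of paths
-/

namespace Pool.Agent.N76.LP

open Polynomial MeasureTheory Set Filter Topology Module
open Pool.Agent.Y94.R (Lp)
open scoped Real

namespace TransAux

/-- first `f`, then `g` -/
noncomputable def gl (f g : ℝ → ℂ) (s : ℝ) : ℂ := if s ≤ 1 / 2 then f (2 * s) else g (2 * s - 1)

theorem gl_left {f g : ℝ → ℂ} {s : ℝ} (hs : s < 1 / 2) :
    gl f g =ᶠ[𝓝 s] fun s => f (2 * s) := by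
  filter_upwards [eventually_lt_nhds hs] with u hu
  unfold gl
  rw [if_pos hu.le]

theorem gl_right {f g : ℝ → ℂ} {s : ℝ} (hs : 1 / 2 < s) :
    gl f g =ᶠ[𝓝 s] fun s => g (2 * s - 1) := by
  filter_upwards [eventually_gt_nhds hs] with u hu
  unfold gl
  rw [if_neg (not_le.2 hu)]

theorem gl_mid {f g : ℝ → ℂ} {a : ℂ} (hf : ∃ ε : ℝ, 0 < ε ∧ ∀ s, 1 - ε ≤ s → f s = a)
    (hg : ∃ ε : ℝ, 0 < ε ∧ ∀ s, s ≤ ε → g s = a) : gl f g =ᶠ[𝓝 (1 / 2)] fun _ => a := by
  obtain ⟨ε, h1, h2⟩ := hf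
  obtain ⟨ε', h3, h4⟩ := hg
  have e1 : ∀ᶠ u : ℝ in 𝓝 (1 / 2), 1 / 2 - ε / 2 < u := eventually_gt_nhds (by linarith)
  have e2 : ∀ᶠ u : ℝ in 𝓝 (1 / 2), u < 1 / 2 + ε' / 2 := eventually_lt_nhds (by linarith)
  filter_upwards [e1, e2] with u hu1 hu2
  unfold gl
  split_ifs
  · exact h2 _ (by linarith)
  · exact h4 _ (by linarith)

theorem gl_contDiff {f g : ℝ → ℂ} {a : ℂ} (hf : ContDiff ℝ 2 f) (hg : ContDiff ℝ 2 g)
    (hfa : ∃ ε : ℝ, 0 < ε ∧ ∀ s, 1 - ε ≤ s → f s = a)
    (hga : ∃ ε : ℝ, 0 < ε ∧ ∀ s, s ≤ ε → g s = a) : ContDiff ℝ 2 (gl f g) := by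
  rw [contDiff_iff_contDiffAt]
  intro s
  rcases lt_trichotomy s (1 / 2) with hs | hs | hs
  · refine ContDiffAt.congr_of_eventuallyEq ?_ (gl_left hs)
    exact (hf.comp (contDiff_const.mul contDiff_id)).contDiffAt
  · rw [hs]
    exact contDiffAt_const.congr_of_eventuallyEq (gl_mid hfa hga)
  · refine ContDiffAt.congr_of_eventuallyEq ?_ (gl_right hs)
    exact (hg.comp ((contDiff_const.mul contDiff_id).sub contDiff_const)).contDiffAt

/-- the composition -/
noncomputable def comp {D : ℂ[X]} {p p' p'' : ℂ × ℂ} (c : Pth D p p') (c' : Pth D p' p'') :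
    Pth D p p'' where
  x := gl c.x c'.x
  y := gl c.y c'.y
  contDiff_x := gl_contDiff (a := p'.1) c.contDiff_x c'.contDiff_x
    (by obtain ⟨ε, h1, h2⟩ := c.right; exact ⟨ε, h1, fun s hs => (h2 s hs).1⟩)
    (by obtain ⟨ε, h1, h2⟩ := c'.left; exact ⟨ε, h1, fun s hs => (h2 s hs).1⟩)
  contDiff_y := gl_contDiff (a := p'.2) c.contDiff_y c'.contDiff_y
    (by obtain ⟨ε, h1, h2⟩ := c.right; exact ⟨ε, h1, fun s hs => (h2 s hs).2⟩)
    (by obtain ⟨ε, h1, h2⟩ := c'.left; exact ⟨ε, h1, fun s hs => (h2 s hs).2⟩)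
  eq := by
    intro s
    unfold gl
    split_ifs
    · exact c.eq _
    · exact c'.eq _
  ne := by
    intro s
    unfold gl
    split_ifs
    · exact c.ne _
    · exact c'.ne _
  left := by
    obtain ⟨ε, h1, h2⟩ := c.left
    refine ⟨min (ε / 2) (1 / 2), lt_min (by linarith) (by norm_num), fun s hs => ?_⟩
    have h3 : s ≤ 1 / 2 := hs.trans (min_le_right _ _)
    have h4 : s ≤ ε / 2 := hs.trans (min_le_left _ _)
    unfold gl
    rw [if_pos h3, if_pos h3]
    exact h2 _ (by linarith)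
  right := by
    obtain ⟨ε, h1, h2⟩ := c'.right
    refine ⟨min (ε / 2) (1 / 4), lt_min (by linarith) (by norm_num), fun s hs => ?_⟩
    have h3 : ¬ s ≤ 1 / 2 := by
      have := min_le_right (ε / 2) (1 / 4 : ℝ)
      rw [not_le]; linarith
    have h4 : 1 - ε / 2 ≤ s := by
      have := min_le_left (ε / 2) (1 / 4 : ℝ)
      linarith
    unfold gl
    rw [if_neg h3, if_neg h3]
    exact h2 _ (by linarith)

/-- the integrand -/
noncomputable def it (q : ℂ[X]) (x y : ℝ → ℂ) (s : ℝ) : ℂ := q.eval (x s) * deriv x s / y s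

theorem it_cont (q : ℂ[X]) {x y : ℝ → ℂ} (hx : ContDiff ℝ 2 x) (hy : ContDiff ℝ 2 y)
    (hne : ∀ s, y s ≠ 0) : Continuous (it q x y) := by
  have h1 : Continuous (deriv x) := hx.continuous_deriv (by norm_num)
  have h2 : Continuous fun s => q.eval (x s) := q.continuous.comp hx.continuous
  exact (h2.mul h1).div hy.continuous hne

theorem ae_ne (a : ℝ) : ∀ᵐ s : ℝ, s ≠ a := by
  have := (Set.countable_singleton a).ae_notMem (volume : Measure ℝ)
  filter_upwards [this] with s hs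
  simpa using hs

theorem int_comp {D : ℂ[X]} {p p' p'' : ℂ × ℂ} (c : Pth D p p') (c' : Pth D p' p'') (q : ℂ[X]) :
    (comp c c').int q = c.int q + c'.int q := by
  have hF : Continuous (it q (gl c.x c'.x) (gl c.y c'.y)) :=
    it_cont q (comp c c').contDiff_x (comp c c').contDiff_y (comp c c').ne
  have h0 : (comp c c').int q = ∫ s in (0 : ℝ)..1, it q (gl c.x c'.x) (gl c.y c'.y) s := rfl
  have hc : c.int q = ∫ s in (0 : ℝ)..1, it q c.x c.y s := rfl
  have hc' : c'.int q = ∫ s in (0 : ℝ)..1, it q c'.x c'.y s := rfl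
  rw [h0, ← intervalIntegral.integral_add_adjacent_intervals (hF.intervalIntegrable 0 (1 / 2))
    (hF.intervalIntegrable (1 / 2) 1)]
  congr 1
  · have e1 : ∫ s in (0 : ℝ)..(1 / 2), it q (gl c.x c'.x) (gl c.y c'.y) s =
        ∫ s in (0 : ℝ)..(1 / 2), 2 * it q c.x c.y (2 * s) := by
      apply intervalIntegral.integral_congr_ae
      filter_upwards [ae_ne (1 / 2)] with s hs hs2
      rw [uIoc_of_le (by norm_num)] at hs2
      have h3 : s < 1 / 2 := lt_of_le_of_ne hs2.2 hs
      unfold it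
      rw [(gl_left h3).deriv_eq, deriv_comp_mul_left]
      unfold gl
      rw [if_pos h3.le, if_pos h3.le, Complex.real_smul]
      push_cast
      ring
    rw [e1, intervalIntegral.integral_const_mul,
      intervalIntegral.integral_comp_mul_left (fun s => it q c.x c.y s) two_ne_zero, hc]
    norm_num
    ring
  · have e1 : ∫ s in (1 / 2 : ℝ)..1, it q (gl c.x c'.x) (gl c.y c'.y) s =
        ∫ s in (1 / 2 : ℝ)..1, 2 * it q c'.x c'.y (2 * s - 1) := by
      apply intervalIntegral.integral_congr_ae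
      refine Eventually.of_forall fun s hs2 => ?_
      rw [uIoc_of_le (by norm_num)] at hs2
      have h3 : 1 / 2 < s := hs2.1
      have h4 : HasDerivAt (fun s : ℝ => c'.x (2 * s - 1)) ((2 : ℝ) • deriv c'.x (2 * s - 1)) s := by
        have h5 : HasDerivAt c'.x (deriv c'.x (2 * s - 1)) (2 * s - 1) :=
          (c'.contDiff_x.differentiable (by norm_num) _).hasDerivAt
        have h6 : HasDerivAt (fun s : ℝ => 2 * s - 1) 2 s := by
          have := ((hasDerivAt_id s).const_mul 2).sub_const 1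
          simpa using this
        exact h5.scomp s h6
      unfold it
      rw [(gl_right h3).deriv_eq, h4.deriv]
      unfold gl
      rw [if_neg (not_le.2 h3), if_neg (not_le.2 h3), Complex.real_smul]
      push_cast
      ring
    rw [e1, intervalIntegral.integral_const_mul,
      intervalIntegral.integral_comp_mul_sub (fun s => it q c'.x c'.y s) two_ne_zero, hc']
    norm_num
    ring

end TransAux

theorem trans : S_TRANS := by
  intro D p p' p'' c c'
  exact ⟨TransAux.comp c c', fun q => TransAux.int_comp c c' q⟩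

end Pool.Agent.N76.LP
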